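import Pool.Agent.Lib.MP_d0e829_nt.CV.Spec

/-!
# Auxiliary forms (module AXG)
-/

set_option autoImplicit false

open MvPolynomial

namespace Pool.Agent.Lib.MP_d0e829_nt.CV

open scoped Classical

namespace AXGM

/-- the exponent `(i, j, D - i - j)` -/
noncomputable def ex (D : ℕ) (p : ℕ × ℕ) : Fin 3 →₀ ℕ :=
  Finsupp.equivFunOnFinite.symm ![p.1, p.2, D - p.1 - p.2]

lemma ex_zero (D : ℕ) (p : ℕ × ℕ) : ex D p 0 = p.1 := rfl

lemma ex_one (D : ℕ) (p : ℕ × ℕ) : ex D p 1 = p.2 := rfl

lemma ex_two (D : ℕ) (p : ℕ × ℕ) : ex D p 2 = D - p.1 - p.2 := rfl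

lemma ex_inj {D : ℕ} {p q : ℕ × ℕ} (h : ex D p = ex D q) : p = q := by
  have h0 : ex D p 0 = ex D q 0 := by rw [h]
  have h1 : ex D p 1 = ex D q 1 := by rw [h]
  exact Prod.ext h0 h1

/-- the pairs `(i, j)` with `i + j ≤ D` -/
def Mo (D : ℕ) : Finset (ℕ × ℕ) :=
  ((Finset.range (D + 1)) ×ˢ (Finset.range (D + 1))).filter (fun p => p.1 + p.2 ≤ D)

lemma mem_Mo {D : ℕ} {p : ℕ × ℕ} : p ∈ Mo D ↔ p.1 + p.2 ≤ D := by
  unfold Mo
  rw [Finset.mem_filter, Finset.mem_product, Finset.mem_range, Finset.mem_range]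
  omega

lemma card_Mo (D : ℕ) : 2 * (Mo D).card = (D + 1) * (D + 2) := by
  induction D with
  | zero =>
    have h : Mo 0 = {(0, 0)} := by
      ext p
      rw [mem_Mo, Finset.mem_singleton]
      constructor
      · intro h
        exact Prod.ext (by omega) (by omega)
      · intro h
        rw [h]
        exact le_refl 0
    rw [h, Finset.card_singleton]
  | succ n ih =>
    have h : Mo (n + 1) = Mo n ∪ Finset.HasAntidiagonal.antidiagonal (n + 1) := by
      ext p
      rw [Finset.mem_union, mem_Mo, mem_Mo, Finset.HasAntidiagonal.mem_antidiagonal]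
      omega
    have hd : Disjoint (Mo n) (Finset.HasAntidiagonal.antidiagonal (n + 1)) := by
      rw [Finset.disjoint_left]
      intro p hp hq
      rw [mem_Mo] at hp
      rw [Finset.HasAntidiagonal.mem_antidiagonal] at hq
      omega
    rw [h, Finset.card_union_of_disjoint hd, Finset.Nat.card_antidiagonal, mul_add, ih]
    ring

lemma ex_degree {D : ℕ} {p : ℕ × ℕ} (hp : p.1 + p.2 ≤ D) : (ex D p).degree = D := by
  rw [Finsupp.degree_eq_sum, Fin.sum_univ_three, ex_zero, ex_one, ex_two]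
  omega

lemma ex_of_degree {D : ℕ} {d : Fin 3 →₀ ℕ} (hd : d.degree = D) :
    d 0 + d 1 ≤ D ∧ ex D (d 0, d 1) = d := by
  rw [Finsupp.degree_eq_sum, Fin.sum_univ_three] at hd
  refine ⟨by omega, ?_⟩
  ext i
  fin_cases i
  · exact ex_zero _ _
  · exact ex_one _ _
  · show ex D (d 0, d 1) 2 = d 2
    rw [ex_two]
    show D - d 0 - d 1 = d 2
    omega

lemma monomial_ex {k : Type} [Field k] (D : ℕ) (p : ℕ × ℕ) (c : k) :
    monomial (ex D p) c = (C c : MvPolynomial (Fin 3) k) * X 0 ^ p.1 * X 1 ^ p.2 *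
      X 2 ^ (D - p.1 - p.2) := by
  rw [monomial_eq, Finsupp.prod_fintype _ _ (fun i => pow_zero _), Fin.prod_univ_three, ex_zero, ex_one,
    ex_two, mul_assoc, mul_assoc, mul_assoc]

/-- a form is the sum of its monomials -/
lemma form_eq {k : Type} [Field k] {D : ℕ} {F : MvPolynomial (Fin 3) k} (hF : F.IsHomogeneous D) :
    F = ∑ p ∈ Mo D, monomial (ex D p) (coeff (ex D p) F) := by
  ext d
  rw [coeff_sum]
  by_cases hd : d.degree = D
  · obtain ⟨h1, h2⟩ := ex_of_degree hd
    rw [Finset.sum_eq_single (d 0, d 1)]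
    · rw [h2, coeff_monomial, if_pos rfl]
    · intro p hp hne
      rw [coeff_monomial, if_neg]
      intro h
      exact hne (ex_inj (h.trans h2.symm))
    · intro h
      exact absurd (mem_Mo.2 h1) h
  · have h0 : coeff d F = 0 := by
      by_contra hc
      apply hd
      have h5 : Finsupp.weight 1 d = D := hF hc
      rw [Finsupp.degree_eq_weight_one]
      exact h5
    rw [h0, Finset.sum_eq_zero]
    intro p hp
    rw [coeff_monomial, if_neg]
    intro h
    apply hd
    rw [← h]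
    exact ex_degree (mem_Mo.1 hp)

/-- the inverse substitution -/
lemma subst {k : Type} [Field k] (l M : Fin 3 → Fin 3 → k)
    (hM : ∀ m i, ∑ j, M m j * l j i = if m = i then 1 else 0) (G : MvPolynomial (Fin 3) k) :
    aeval (fun n => lf (l n)) (aeval (fun m => lf (M m)) G) = G := by
  have h : (aeval (fun n => lf (l n)) : MvPolynomial (Fin 3) k →ₐ[k] MvPolynomial (Fin 3) k).comp
      (aeval (fun m => lf (M m))) = AlgHom.id k _ := by
    apply MvPolynomial.algHom_ext
    intro m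
    rw [AlgHom.comp_apply, aeval_X, AlgHom.id_apply]
    unfold lf
    rw [map_sum]
    have h1 : ∀ j : Fin 3, (aeval (fun n => ∑ i, C (l n i) * X i) :
        MvPolynomial (Fin 3) k →ₐ[k] MvPolynomial (Fin 3) k) (C (M m j) * X j) =
        ∑ i, C (M m j * l j i) * X i := by
      intro j
      rw [map_mul, aeval_X, aeval_C, Finset.mul_sum]
      refine Finset.sum_congr rfl fun i _ => ?_
      rw [C_mul, mul_assoc]
      rfl
    rw [Finset.sum_congr rfl fun j _ => h1 j, Finset.sum_comm]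
    have h2 : ∀ i : Fin 3, ∑ j, (C (M m j * l j i) * X i : MvPolynomial (Fin 3) k) =
        if m = i then X i else 0 := by
      intro i
      rw [← Finset.sum_mul, ← map_sum, hM]
      split_ifs <;> simp
    rw [Finset.sum_congr rfl fun i _ => h2 i, Finset.sum_ite_eq, if_pos (Finset.mem_univ _)]
  exact DFunLike.congr_fun h G

lemma lf_hom {k : Type} [Field k] (c : Fin 3 → k) : (lf c).IsHomogeneous 1 := by
  unfold lf
  apply IsHomogeneous.sum
  intro j _
  have := (isHomogeneous_C (Fin 3) (c j)).mul (isHomogeneous_X k j)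
  simpa using this

/-- the form with given coefficients -/
noncomputable def Gl (k : Type) [Field k] (D : ℕ) : (↥(Mo D) → k) →ₗ[k] MvPolynomial (Fin 3) k :=
  ∑ p : ↥(Mo D), (monomial (ex D p.1)).comp (LinearMap.proj p)

lemma Gl_apply {k : Type} [Field k] {D : ℕ} (z : ↥(Mo D) → k) :
    Gl k D z = ∑ p : ↥(Mo D), monomial (ex D p.1) (z p) := by
  unfold Gl
  rw [LinearMap.sum_apply]
  rfl

lemma Gl_hom {k : Type} [Field k] {D : ℕ} (z : ↥(Mo D) → k) : (Gl k D z).IsHomogeneous D := by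
  rw [Gl_apply]
  apply IsHomogeneous.sum
  intro p _
  exact isHomogeneous_monomial _ (ex_degree (mem_Mo.1 p.2))

lemma Gl_inj {k : Type} [Field k] {D : ℕ} (z : ↥(Mo D) → k) (h : Gl k D z = 0) : z = 0 := by
  funext p
  have h1 : coeff (ex D p.1) (Gl k D z) = z p := by
    rw [Gl_apply, coeff_sum, Finset.sum_eq_single p]
    · rw [coeff_monomial, if_pos rfl]
    · intro q _ hq
      rw [coeff_monomial, if_neg]
      intro h
      exact hq (Subtype.ext (ex_inj h))
    · intro h
      exact absurd (Finset.mem_univ _) h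
  rw [← h1, h, coeff_zero]
  rfl

lemma exists_inv {k : Type} [Field k] (l : Fin 3 → Fin 3 → k) (hl : LinearIndependent k l) :
    ∃ M : Fin 3 → Fin 3 → k, ∀ m i, ∑ j, M m j * l j i = if m = i then 1 else 0 := by
  have h1 : IsUnit (Matrix.of l) := by
    rw [← Matrix.linearIndependent_rows_iff_isUnit]
    exact hl
  have h2 := Matrix.nonsing_inv_mul (Matrix.of l) ((Matrix.isUnit_iff_isUnit_det _).1 h1)
  refine ⟨fun m j => (Matrix.of l)⁻¹ m j, fun m i => ?_⟩
  have h3 := congrFun (congrFun h2 m) i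
  rw [Matrix.mul_apply, Matrix.one_apply] at h3
  exact h3

end AXGM

open AXGM

theorem specAXG (hVIO : SpecVIO) : SpecAXG := by
  intro k _ ι E l A B t D hl hsum
  let bad : ι → Finset (ℕ × ℕ) := fun e => ((Finset.range (D + 1)) ×ˢ (Finset.range (D + 1))).filter
    (fun p => p.1 + p.2 ≤ D ∧ A e * p.1 + B e * p.2 < t * (A e * B e))
  have hM : ∀ e, ∃ M : Fin 3 → Fin 3 → k, e ∈ E →
      ∀ m i, ∑ j, M m j * l e j i = if m = i then 1 else 0 := by
    intro e
    by_cases he : e ∈ E
    · obtain ⟨M, hM⟩ := exists_inv (l e) (hl e he)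
      exact ⟨M, fun _ => hM⟩
    · exact ⟨fun _ _ => 0, fun h => absurd h he⟩
  choose M hM using hM
  let T : (↥(Mo D) → k) →ₗ[k] (↥(E.sigma bad) → k) := LinearMap.pi fun i =>
    ((lcoeff k (ex D i.1.2)).comp
      ((aeval (fun m => lf (M i.1.1 m)) : MvPolynomial (Fin 3) k →ₐ[k] MvPolynomial (Fin 3) k)).toLinearMap).comp
      (Gl k D)
  have hcard : (E.sigma bad).card < (Mo D).card := by
    rw [Finset.card_sigma]
    have h1 : 2 * ∑ e ∈ E, (bad e).card ≤ D ^ 2 := by
      rw [Finset.mul_sum]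
      refine le_trans (Finset.sum_le_sum fun e _ => ?_) hsum
      exact hVIO D (A e) (B e) t
    have h2 := card_Mo D
    have h3 : D ^ 2 < (D + 1) * (D + 2) := by nlinarith
    omega
  have hker : LinearMap.ker T ≠ ⊥ := by
    apply LinearMap.ker_ne_bot_of_finrank_lt
    rw [Module.finrank_fintype_fun_eq_card, Module.finrank_fintype_fun_eq_card, Fintype.card_coe,
      Fintype.card_coe]
    exact hcard
  obtain ⟨z, hz, hz0⟩ := (Submodule.ne_bot_iff _).1 hker
  refine ⟨Gl k D z, Gl_hom z, fun h => hz0 (Gl_inj z h), fun e he => ?_⟩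
  have hT : ∀ p ∈ bad e, coeff (ex D p) (aeval (fun m => lf (M e m)) (Gl k D z)) = 0 := by
    intro p hp
    have h1 : T z ⟨⟨e, p⟩, Finset.mem_sigma.2 ⟨he, hp⟩⟩ = 0 := by
      rw [LinearMap.mem_ker.1 hz]
      rfl
    exact h1
  have hhom : (aeval (fun m => lf (M e m)) (Gl k D z)).IsHomogeneous D := by
    have := (Gl_hom z).aeval (fun m => lf (M e m)) (n := 1) (fun m => lf_hom _)
    rwa [one_mul] at this
  refine ⟨fun p => coeff (ex D p) (aeval (fun m => lf (M e m)) (Gl k D z)), ?_⟩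
  have h1 := form_eq hhom
  have h2 := subst (l e) (M e) (hM e he) (Gl k D z)
  have h3 : Gl k D z = ∑ p ∈ Mo D, C (coeff (ex D p) (aeval (fun m => lf (M e m)) (Gl k D z))) *
      lf (l e 0) ^ p.1 * lf (l e 1) ^ p.2 * lf (l e 2) ^ (D - p.1 - p.2) := by
    conv_lhs => rw [← h2, h1]
    rw [map_sum]
    refine Finset.sum_congr rfl fun p _ => ?_
    rw [monomial_ex, map_mul, map_mul, map_mul, map_pow, map_pow, map_pow, aeval_X, aeval_X, aeval_X, aeval_C]
    rfl
  refine h3.trans ?_
  symm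
  apply Finset.sum_subset
  · intro p hp
    unfold PX at hp
    rw [Finset.mem_filter] at hp
    exact mem_Mo.2 hp.2.1
  · intro p hp hp'
    have h4 : p ∈ bad e := by
      have h5 := hp
      unfold Mo at h5
      rw [Finset.mem_filter] at h5
      unfold PX at hp'
      rw [Finset.mem_filter] at hp'
      show p ∈ ((Finset.range (D + 1)) ×ˢ (Finset.range (D + 1))).filter
        (fun p => p.1 + p.2 ≤ D ∧ A e * p.1 + B e * p.2 < t * (A e * B e))
      rw [Finset.mem_filter]
      refine ⟨h5.1, h5.2, ?_⟩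
      by_contra h6
      exact hp' ⟨h5.1, h5.2, not_lt.1 h6⟩
    show C (coeff (ex D p) (aeval (fun m => lf (M e m)) (Gl k D z))) * _ * _ * _ = 0
    rw [hT p h4, C_0, zero_mul, zero_mul, zero_mul]

end Pool.Agent.Lib.MP_d0e829_nt.CV
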