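import Pool.Agent.Lib.MP_d0e829_nt.CV.Spec

/-!
# MP_d0e829_nt: module CRE: the curve estimate
-/

set_option autoImplicit false

open NumberField MvPolynomial

namespace Pool.Agent.Lib.MP_d0e829_nt.CV

namespace CREM

/-- a sum over an image of nonnegative terms -/
theorem sum_image_le {α β : Type} [DecidableEq β] (T : Finset α) (g : α → β) (f : β → ℝ)
    (hf : ∀ b, 0 ≤ f b) : ∑ b ∈ T.image g, f b ≤ ∑ a ∈ T, f (g a) := by
  classical
  induction T using Finset.induction_on with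
  | empty => simp
  | insert a s ha ih =>
    rw [Finset.image_insert, Finset.sum_insert ha]
    by_cases hg : g a ∈ s.image g
    · rw [Finset.insert_eq_of_mem hg]
      have := hf (g a)
      linarith
    · rw [Finset.sum_insert hg]
      linarith

/-- the entries -/
abbrev Ent (q R : ℕ) : Type := Fin q × Fin q × Fin (2 * R + 1) × Fin (2 * R + 1)

/-- the first weight -/
def wA {q R : ℕ} (e : Ent q R) : ℕ := e.2.2.1.val

/-- the second weight -/
def wB {q R : ℕ} (e : Ent q R) : ℕ := e.2.2.2.val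

theorem wA_le {q R : ℕ} (e : Ent q R) : wA e ≤ 2 * R := by
  have := e.2.2.1.isLt
  unfold wA
  omega

theorem wB_le {q R : ℕ} (e : Ent q R) : wB e ≤ 2 * R := by
  have := e.2.2.2.isLt
  unfold wB
  omega

/-- the constant `M` -/
def MM (q R : ℕ) : ℕ := Fintype.card (Ent q R) * (4 * R)

theorem sum_w_le {q R : ℕ} (E : Finset (Ent q R)) : ∑ e ∈ E, (wA e + wB e) ≤ MM q R := by
  calc ∑ e ∈ E, (wA e + wB e) ≤ ∑ _e ∈ E, 4 * R :=
        Finset.sum_le_sum fun e _ => by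
          have h1 := wA_le e
          have h2 := wB_le e
          omega
    _ = E.card * (4 * R) := by rw [Finset.sum_const, smul_eq_mul]
    _ ≤ MM q R := Nat.mul_le_mul_right _ (Finset.card_le_univ E)

/-- `∑ A B` -/
def sE {q R : ℕ} (E : Finset (Ent q R)) : ℕ := ∑ e ∈ E, wA e * wB e

/-- the degree -/
noncomputable def DE {q R : ℕ} (t : ℕ) (E : Finset (Ent q R)) : ℕ :=
  ⌈Real.sqrt ((t : ℝ) ^ 2 * (sE E : ℝ) + 2 * t * (MM q R : ℝ))⌉₊

theorem DE_sq {q R : ℕ} (t : ℕ) (E : Finset (Ent q R)) :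
    ∑ e ∈ E, (t ^ 2 * (wA e * wB e) + 2 * t * (wA e + wB e)) ≤ DE t E ^ 2 := by
  have h1 : ∑ e ∈ E, (t ^ 2 * (wA e * wB e) + 2 * t * (wA e + wB e)) ≤
      t ^ 2 * sE E + 2 * t * MM q R := by
    rw [Finset.sum_add_distrib, ← Finset.mul_sum, ← Finset.mul_sum]
    have h := Nat.mul_le_mul_left (2 * t) (sum_w_le E)
    unfold sE
    omega
  have h2 : ((t ^ 2 * sE E + 2 * t * MM q R : ℕ) : ℝ) ≤ ((DE t E ^ 2 : ℕ) : ℝ) := by
    push_cast
    have h0 : (0 : ℝ) ≤ (t : ℝ) ^ 2 * (sE E : ℝ) + 2 * t * (MM q R : ℝ) := by positivity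
    calc (t : ℝ) ^ 2 * (sE E : ℝ) + 2 * t * (MM q R : ℝ)
        = Real.sqrt ((t : ℝ) ^ 2 * (sE E : ℝ) + 2 * t * (MM q R : ℝ)) ^ 2 := (Real.sq_sqrt h0).symm
      _ ≤ (DE t E : ℝ) ^ 2 := by
        have h3 : Real.sqrt ((t : ℝ) ^ 2 * (sE E : ℝ) + 2 * t * (MM q R : ℝ)) ≤ (DE t E : ℝ) :=
          Nat.le_ceil _
        exact pow_le_pow_left₀ (Real.sqrt_nonneg _) h3 2
  exact h1.trans (Nat.cast_le.1 h2)

theorem DE_le {q R : ℕ} (t : ℕ) (E : Finset (Ent q R)) (S : ℝ) (hS : (sE E : ℝ) ≤ S) :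
    (DE t E : ℝ) ≤ Real.sqrt ((t : ℝ) ^ 2 * S + 2 * t * (MM q R : ℝ)) + 1 := by
  have h1 : (DE t E : ℝ) < Real.sqrt ((t : ℝ) ^ 2 * (sE E : ℝ) + 2 * t * (MM q R : ℝ)) + 1 :=
    Nat.ceil_lt_add_one (Real.sqrt_nonneg _)
  have h2 : Real.sqrt ((t : ℝ) ^ 2 * (sE E : ℝ) + 2 * t * (MM q R : ℝ)) ≤
      Real.sqrt ((t : ℝ) ^ 2 * S + 2 * t * (MM q R : ℝ)) := by
    apply Real.sqrt_le_sqrt
    have h3 : (t : ℝ) ^ 2 * (sE E : ℝ) ≤ (t : ℝ) ^ 2 * S :=
      mul_le_mul_of_nonneg_left hS (by positivity)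
    linarith
  linarith

end CREM

open CREM

/-- **CRE** -/
theorem specCRE (hAXG : SpecAXG) (hLCG : SpecLCG) (hPFG : SpecPFG) : SpecCRE := by
  classical
  intro k _ _ q ℓ hq hgen R hR
  refine ⟨(MM q R : ℝ), by positivity, ?_⟩
  intro t ht
  choose third hth1 hth2 using exists_third hq
  let l : Ent q R → Fin 3 → Fin 3 → k := fun e => ![ℓ e.1, ℓ e.2.1, ℓ (third e.1 e.2.1)]
  let Good : Finset (Ent q R) := Finset.univ.filter fun e => e.1 ≠ e.2.1
  have hli : ∀ e ∈ Good, LinearIndependent k (l e) := by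
    intro e he
    have hne : e.1 ≠ e.2.1 := (Finset.mem_filter.1 he).2
    exact hgen _ _ _ hne (hth1 _ _).symm (hth2 _ _).symm
  -- the forms
  have hG : ∀ E : Finset (Ent q R), ∃ G : MvPolynomial (Fin 3) k, E ⊆ Good →
      (G.IsHomogeneous (DE t E) ∧ G ≠ 0 ∧ ∀ e ∈ E, InI (l e) (DE t E) (wA e) (wB e) t G) := by
    intro E
    by_cases hE : E ⊆ Good
    · obtain ⟨G, h1, h2, h3⟩ := hAXG k (Ent q R) E l wA wB t (DE t E)
        (fun e he => hli e (hE he)) (DE_sq t E)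
      exact ⟨G, fun _ => ⟨h1, h2, h3⟩⟩
    · exact ⟨0, fun h => absurd h hE⟩
  choose G hG using hG
  -- local constants
  have hL : ∀ (E : Finset (Ent q R)) (e : Ent q R), ∃ (A₀ : Finset k) (c₀ : ℝ), 0 ≤ c₀ ∧
      (E ⊆ Good → e ∈ E → ∀ A' : Finset k, A₀ ⊆ A' →
        ∀ (K : Type) [Field K] [NumberField K] [Algebra k K] (w : Place K)
        (x : Fin 3 → K), x ≠ 0 → aeval x (G E) ≠ 0 → evalForm (l e 0) x ≠ 0 →
        evalForm (l e 1) x ≠ 0 →
        ∀ h' : ℝ, 0 ≤ h' → (wA e * wB e ≠ 0 → wA e * h' ≤ mu (l e 0) w x ∧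
          wB e * h' ≤ mu (l e 1) w x) →
        t * (wA e * wB e) * h' - c₀ * err A' w ≤
          DE t E * Real.log (normV w x) - Real.log (absV w (aeval x (G E)))) := by
    intro E e
    by_cases hE : E ⊆ Good ∧ e ∈ E
    · obtain ⟨A₀, c₀, h0, h1⟩ := hLCG k (l e) (DE t E) (wA e) (wB e) t (G E)
        ((hG E hE.1).2.2 e hE.2)
      exact ⟨A₀, c₀, h0, fun _ _ => h1⟩
    · exact ⟨∅, 0, le_rfl, fun h1 h2 => absurd ⟨h1, h2⟩ hE⟩
  choose A1 c1 hc1 hL using hL
  -- global constants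
  have hP : ∀ (E : Finset (Ent q R)), ∃ (A₀ : Finset k) (c₀ : ℝ), 0 ≤ c₀ ∧
      (E ⊆ Good → ∀ A' : Finset k, A₀ ⊆ A' →
        ∀ (K : Type) [Field K] [NumberField K] [Algebra k K] (x : Fin 3 → K), x ≠ 0 →
        aeval x (G E) ≠ 0 →
        ∀ T : Finset (Place K), ∑ w ∈ T, (DE t E * Real.log (normV w x) -
          Real.log (absV w (aeval x (G E)))) ≤
          DE t E * height x + c₀ * ∑ᶠ w : Place K, err A' w) := by
    intro E
    by_cases hE : E ⊆ Good
    · obtain ⟨A₀, c₀, h0, h1⟩ := hPFG k (DE t E) (G E) (hG E hE).1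
      exact ⟨A₀, c₀, h0, fun _ => h1⟩
    · exact ⟨∅, 0, le_rfl, fun h1 => absurd h1 hE⟩
  choose A2 c2 hc2 hP using hP
  let A' : Finset k := (Finset.univ : Finset (Finset (Ent q R) × Ent q R)).biUnion
      (fun p => A1 p.1 p.2) ∪ (Finset.univ : Finset (Finset (Ent q R))).biUnion A2
  have hA1 : ∀ E e, A1 E e ⊆ A' := by
    intro E e y hy
    exact Finset.mem_union_left _ (Finset.mem_biUnion.2 ⟨(E, e), Finset.mem_univ _, hy⟩)
  have hA2 : ∀ E, A2 E ⊆ A' := by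
    intro E y hy
    exact Finset.mem_union_right _ (Finset.mem_biUnion.2 ⟨E, Finset.mem_univ _, hy⟩)
  let c₀ : ℝ := ∑ p : Finset (Ent q R) × Ent q R, c1 p.1 p.2 + ∑ E : Finset (Ent q R), c2 E
  have hs1 : 0 ≤ ∑ p : Finset (Ent q R) × Ent q R, c1 p.1 p.2 :=
    Finset.sum_nonneg fun p _ => hc1 _ _
  have hs2 : 0 ≤ ∑ E : Finset (Ent q R), c2 E := Finset.sum_nonneg fun E _ => hc2 _
  have hc0 : 0 ≤ c₀ := add_nonneg hs1 hs2
  have hc1' : ∀ E e, c1 E e ≤ c₀ := by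
    intro E e
    have h := Finset.single_le_sum (f := fun p : Finset (Ent q R) × Ent q R => c1 p.1 p.2)
      (fun p _ => hc1 _ _) (Finset.mem_univ (E, e))
    have h' : c1 E e ≤ ∑ p : Finset (Ent q R) × Ent q R, c1 p.1 p.2 := h
    show c1 E e ≤ ∑ p : Finset (Ent q R) × Ent q R, c1 p.1 p.2 + ∑ E : Finset (Ent q R), c2 E
    linarith
  have hc2' : ∀ E, c2 E ≤ c₀ := by
    intro E
    have h := Finset.single_le_sum (f := fun E : Finset (Ent q R) => c2 E)
      (fun p _ => hc2 _) (Finset.mem_univ E)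
    have h' : c2 E ≤ ∑ E : Finset (Ent q R), c2 E := h
    show c2 E ≤ ∑ p : Finset (Ent q R) × Ent q R, c1 p.1 p.2 + ∑ E : Finset (Ent q R), c2 E
    linarith
  obtain ⟨E₁, hE₁⟩ := exists_bound_err A'
  set E₀ : ℝ := max E₁ 0 with hE₀
  have hE0 : 0 ≤ E₀ := le_max_right _ _
  refine ⟨Good.powerset.image G, 2 * c₀ * E₀, by positivity, ?_, ?_⟩
  · intro g hg
    obtain ⟨E, hE, rfl⟩ := Finset.mem_image.1 hg
    have h := hG E (Finset.mem_powerset.1 hE)
    exact ⟨h.2.1, _, h.1⟩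
  intro K _ _ _ x hx hℓx hGx T a b A B hT
  have hh : 0 ≤ height x := height_nonneg x hx
  have hRpos : (0 : ℝ) < R := by
    have : 0 < R := hR
    exact_mod_cast this
  have hEK : ∑ᶠ w : Place K, err A' w ≤ E₀ := (hE₁ K).trans (le_max_left _ _)
  have hsumE : ∑ w ∈ T, err A' w ≤ E₀ :=
    (sum_le_finsum (fun w => err_nonneg A' w) (support_err_finite A') T).trans hEK
  -- the entries of the places
  let enc : Place K → Ent q R := fun w => (a w, b w, ⟨min (A w) (2 * R), by omega⟩,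
    ⟨min (B w) (2 * R), by omega⟩)
  have hwA : ∀ w ∈ T, wA (enc w) = A w := by
    intro w hw
    have := (hT w hw).2.1
    show min (A w) (2 * R) = A w
    omega
  have hwB : ∀ w ∈ T, wB (enc w) = B w := by
    intro w hw
    have := (hT w hw).2.2.1
    show min (B w) (2 * R) = B w
    omega
  let E : Finset (Ent q R) := T.image enc
  have hEG : E ⊆ Good := by
    intro e he
    obtain ⟨w, hw, rfl⟩ := Finset.mem_image.1 he
    exact Finset.mem_filter.2 ⟨Finset.mem_univ _, (hT w hw).1⟩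
  have hGE : aeval x (G E) ≠ 0 :=
    hGx _ (Finset.mem_image.2 ⟨E, Finset.mem_powerset.2 hEG, rfl⟩)
  set S : ℝ := ∑ w ∈ T, ((A w * B w : ℕ) : ℝ) with hS
  have hsS : (sE E : ℝ) ≤ S := by
    have h1 : (sE E : ℝ) = ∑ e ∈ E, ((wA e * wB e : ℕ) : ℝ) := by
      unfold sE
      push_cast
      rfl
    rw [h1, hS]
    refine (sum_image_le T enc (fun e => ((wA e * wB e : ℕ) : ℝ)) fun e => by positivity).trans ?_
    refine Finset.sum_le_sum fun w hw => ?_
    rw [hwA w hw, hwB w hw]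
  have hloc : ∀ w ∈ T, t * ((A w * B w : ℕ) : ℝ) * (height x / R) - c₀ * err A' w ≤
      DE t E * Real.log (normV w x) - Real.log (absV w (aeval x (G E))) := by
    intro w hw
    have hwE : enc w ∈ E := Finset.mem_image_of_mem _ hw
    have h := hL E (enc w) hEG hwE A' (hA1 _ _) K w x hx hGE (hℓx (a w)) (hℓx (b w))
      (height x / R) (by positivity) (by
        rw [hwA w hw, hwB w hw]
        intro hne
        obtain ⟨g1, g2⟩ := (hT w hw).2.2.2 hne
        constructor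
        · show (A w : ℝ) * (height x / R) ≤ mu (ℓ (a w)) w x
          rw [← mul_div_assoc, div_le_iff₀ hRpos]
          linarith
        · show (B w : ℝ) * (height x / R) ≤ mu (ℓ (b w)) w x
          rw [← mul_div_assoc, div_le_iff₀ hRpos]
          linarith)
    rw [hwA w hw, hwB w hw] at h
    have h2 : c1 E (enc w) * err A' w ≤ c₀ * err A' w :=
      mul_le_mul_of_nonneg_right (hc1' _ _) (err_nonneg _ _)
    push_cast
    linarith
  have hsum := Finset.sum_le_sum hloc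
  rw [Finset.sum_sub_distrib, ← Finset.sum_mul, ← Finset.mul_sum, ← Finset.mul_sum, ← hS] at hsum
  have hpf := hP E hEG A' (hA2 E) K x hx hGE T
  have g1 : c2 E * ∑ᶠ w : Place K, err A' w ≤ c₀ * E₀ :=
    (mul_le_mul_of_nonneg_right (hc2' E) (finsum_nonneg fun w => err_nonneg A' w)).trans
      (mul_le_mul_of_nonneg_left hEK hc0)
  have g2 : c₀ * ∑ w ∈ T, err A' w ≤ c₀ * E₀ := mul_le_mul_of_nonneg_left hsumE hc0
  have g3 : (DE t E : ℝ) * height x ≤
      (Real.sqrt ((t : ℝ) ^ 2 * S + 2 * t * (MM q R : ℝ)) + 1) * height x :=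
    mul_le_mul_of_nonneg_right (DE_le t E S hsS) hh
  have g4 : t * S * (height x / R) ≤
      (Real.sqrt ((t : ℝ) ^ 2 * S + 2 * t * (MM q R : ℝ)) + 1) * height x + 2 * c₀ * E₀ := by
    linarith
  have g5 : t * S * height x = R * (t * S * (height x / R)) := by
    field_simp
  rw [g5]
  exact mul_le_mul_of_nonneg_left g4 hRpos.le

end Pool.Agent.Lib.MP_d0e829_nt.CV
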