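import Pool.Agent.Lib.MP_d0e829_nt.CV.Spec

/-!
# Module FPL: Theorem P
-/

set_option autoImplicit false

open NumberField MvPolynomial

namespace Pool.Agent.Lib.MP_d0e829_nt.CV

open scoped Classical

namespace FPLM

lemma aeval_lf {k K : Type} [Field k] [Field K] [Algebra k K] (c : Fin 3 → k) (x : Fin 3 → K) :
    aeval x (lf c) = evalForm c x := by
  simp only [lf, map_sum, map_mul, aeval_C, aeval_X, evalForm]

lemma lf_ne_zero {k : Type} [Field k] {c : Fin 3 → k} (hc : c ≠ 0) : lf c ≠ 0 := by
  obtain ⟨j, hj⟩ := Function.ne_iff.mp hc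
  intro h
  apply hj
  have h1 := aeval_lf (K := k) c (Pi.single j 1)
  rw [h, map_zero, evalForm] at h1
  rw [Finset.sum_eq_single j] at h1
  · simpa using h1.symm
  · intro i _ hij
    simp [Pi.single_eq_of_ne hij]
  · intro h2
    exact absurd (Finset.mem_univ j) h2

lemma lf_hom {k : Type} [Field k] (c : Fin 3 → k) : (lf c).IsHomogeneous 1 := by
  unfold lf
  exact IsHomogeneous.sum _ _ _ fun j _ => isHomogeneous_C_mul_X (c j) j

/-- the combinatorial part -/
lemma comb {α : Type} (W : Finset α) (N R : ℕ) (hW : W.card ≤ N) (hR : 1 ≤ R) (ε h : ℝ) (hh : 0 < h)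
    (hε : (3 * N + 1 : ℝ) ≤ ε * R) (A B : α → ℕ) (f g : α → ℝ)
    (hA : ∀ w ∈ W, A w ≤ R + 1) (hB : ∀ w ∈ W, B w ≤ R + 1)
    (hf : ∀ w ∈ W, R * f w ≤ (A w + 1) * h) (hg : ∀ w ∈ W, R * g w ≤ (B w + 1) * h)
    (hs : ∑ w ∈ W, ((A w * B w : ℕ) : ℝ) ≤ ((R : ℝ) + 1) ^ 2) :
    ∑ w ∈ W, (f w + g w) ≤ (N + 1 + ε) * h := by
  have hR0 : (1 : ℝ) ≤ R := by exact_mod_cast hR
  have hW' : (W.card : ℝ) ≤ N := by exact_mod_cast hW
  have h1 : ∀ w ∈ W, ((R : ℝ) + 1) * (A w + B w) ≤ ((R : ℝ) + 1) ^ 2 + ((A w * B w : ℕ) : ℝ) := by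
    intro w hw
    have hA' : (A w : ℝ) ≤ R + 1 := by exact_mod_cast hA w hw
    have hB' : (B w : ℝ) ≤ R + 1 := by exact_mod_cast hB w hw
    push_cast
    nlinarith [mul_nonneg (sub_nonneg.2 hA') (sub_nonneg.2 hB')]
  have h2 := Finset.sum_le_sum h1
  rw [← Finset.mul_sum, Finset.sum_add_distrib (f := fun _ => ((R : ℝ) + 1) ^ 2), Finset.sum_const,
    nsmul_eq_mul] at h2
  have h3 : ∑ w ∈ W, ((A w : ℝ) + B w) ≤ (N + 1) * (R + 1) := by
    have h4 : ((R : ℝ) + 1) * ∑ w ∈ W, ((A w : ℝ) + B w) ≤
        ((R : ℝ) + 1) * ((N + 1) * (R + 1)) := by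
      have h5 : (W.card : ℝ) * ((R : ℝ) + 1) ^ 2 ≤ N * ((R : ℝ) + 1) ^ 2 :=
        mul_le_mul_of_nonneg_right hW' (by positivity)
      nlinarith
    exact le_of_mul_le_mul_left h4 (by linarith)
  have h6 : ∑ w ∈ W, R * (f w + g w) ≤ ∑ w ∈ W, ((A w : ℝ) + B w + 2) * h := by
    refine Finset.sum_le_sum fun w hw => ?_
    have := hf w hw
    have := hg w hw
    nlinarith
  rw [← Finset.mul_sum, ← Finset.sum_mul,
    Finset.sum_add_distrib (f := fun w => (A w : ℝ) + B w), Finset.sum_const, nsmul_eq_mul] at h6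
  have h7 : (∑ w ∈ W, ((A w : ℝ) + B w) + (W.card : ℝ) * 2) * h ≤
      ((N + 1) * (R + 1) + N * 2) * h :=
    mul_le_mul_of_nonneg_right (by linarith) hh.le
  have h8 : ((N + 1 : ℝ) * (R + 1) + N * 2) * h ≤ R * ((N + 1 + ε) * h) := by
    have h9 : ((N + 1 : ℝ) * (R + 1) + N * 2) ≤ R * (N + 1 + ε) := by nlinarith
    have := mul_le_mul_of_nonneg_right h9 hh.le
    linarith
  exact le_of_mul_le_mul_left ((h6.trans h7).trans h8) (by linarith)

end FPLM

open FPLM in
/-- **FPL** -/
theorem specFPL (hCRE : SpecCRE) (hNUM : SpecNUM) : SpecFPL := by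
  intro k _ _ S q ℓ h0 hgen N ε hε
  -- three lines
  have h3 : ∀ i j l : Fin q, ∃ A : Finset k, i ≠ j → i ≠ l → j ≠ l → ∀ A' : Finset k, A ⊆ A' →
      ∀ (K : Type) [Field K] [NumberField K] [Algebra k K] (w : Place K) (x : Fin 3 → K),
      evalForm (ℓ i) x ≠ 0 → evalForm (ℓ j) x ≠ 0 → evalForm (ℓ l) x ≠ 0 →
      mu (ℓ i) w x ≤ err A' w ∨ mu (ℓ j) w x ≤ err A' w ∨ mu (ℓ l) w x ≤ err A' w := by
    intro i j l
    by_cases hd : i ≠ j ∧ i ≠ l ∧ j ≠ l
    · obtain ⟨A, hA⟩ := exists_three_lines (hgen i j l hd.1 hd.2.1 hd.2.2)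
      exact ⟨A, fun _ _ _ => hA⟩
    · exact ⟨∅, fun h1 h2 h3 => absurd ⟨h1, h2, h3⟩ hd⟩
  choose A3 hA3 using h3
  -- the finite set of constants
  obtain ⟨A, hA⟩ : ∃ A : Finset k, A =
      (Finset.univ : Finset (Fin q × Fin q × Fin q)).biUnion (fun t => A3 t.1 t.2.1 t.2.2) ∪
      (Finset.univ : Finset (Fin q × Fin 3)).image (fun t => ℓ t.1 t.2) := ⟨_, rfl⟩
  have hA3' : ∀ i j l, A3 i j l ⊆ A := by
    intro i j l y hy
    rw [hA]
    refine Finset.mem_union_left _ ?_
    exact Finset.mem_biUnion.mpr ⟨(i, j, l), Finset.mem_univ _, hy⟩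
  have hAℓ : ∀ i j, ℓ i j ∈ A := by
    intro i j
    rw [hA]
    exact Finset.mem_union_right _ (Finset.mem_image.mpr ⟨(i, j), Finset.mem_univ _, rfl⟩)
  obtain ⟨E₀, hE₀⟩ := exists_bound_err A
  obtain ⟨E, hE⟩ : ∃ E : ℝ, E = max E₀ 0 := ⟨_, rfl⟩
  have hE0 : 0 ≤ E := by rw [hE]; exact le_max_right _ _
  -- facts for a point
  have hfacts : ∀ (K : Type) [Field K] [NumberField K] [Algebra k K] (x : Fin 3 → K),
      (placesAbove K S).ncard ≤ N → x ≠ 0 → (∀ i, evalForm (ℓ i) x ≠ 0) →
      ∃ W : Finset (Place K), W.card ≤ N ∧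
        (∀ T : Finset (Place K), ∑ w ∈ T, err A w ≤ E) ∧
        (∀ i, ∀ T : Finset (Place K), ∑ w ∈ T, mu (ℓ i) w x ≤ height x + E) ∧
        (∀ i, ∀ w : Place K, Real.log (normV w fun j => algebraMap k K (ℓ i j)) ≤ err A w) ∧
        proximity S ℓ x = ∑ i, ∑ w ∈ W,
          (mu (ℓ i) w x + Real.log (normV w fun j => algebraMap k K (ℓ i j))) := by
    intro K _ _ _ x hcard hx hℓx
    have hEK : ∑ᶠ w : Place K, err A w ≤ E := by
      rw [hE]
      exact (hE₀ K).trans (le_max_left _ _)
    have hfin : (placesAbove K S).Finite := placesAbove_finite S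
    refine ⟨hfin.toFinset, ?_, ?_, ?_, ?_, ?_⟩
    · rw [← Set.ncard_eq_toFinset_card _ hfin]
      exact hcard
    · intro T
      exact (sum_le_finsum (fun w => err_nonneg A w) (support_err_finite A) T).trans hEK
    · intro i T
      exact (sum_mu_le (fun j => hAℓ i j) (hℓx i) T).trans (by linarith)
    · intro i w
      have := log_normV_le_err (fun j => hAℓ i j) w
      have h2 := log_kap_nonneg w
      linarith
    · unfold proximity
      refine Finset.sum_congr rfl fun i _ => ?_
      rw [finsum_mem_eq_finite_toFinset_sum _ hfin]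
      refine Finset.sum_congr rfl fun w _ => ?_
      have hn0 : (fun j => algebraMap k K (ℓ i j)) ≠ 0 := by
        intro h
        apply h0 i
        funext j
        have := congrFun h j
        simpa using this
      have p1 := normV_pos w hx
      have p2 := normV_pos w hn0
      have p3 := absV_pos w (hℓx i)
      rw [Real.log_div (mul_pos p1 p2).ne' p3.ne', Real.log_mul p1.ne' p2.ne']
      unfold mu
      ring
  -- the trivial bound
  have htriv : ∀ (K : Type) [Field K] [NumberField K] [Algebra k K] (x : Fin 3 → K),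
      (placesAbove K S).ncard ≤ N → x ≠ 0 → (∀ i, evalForm (ℓ i) x ≠ 0) →
      proximity S ℓ x ≤ q * (height x + 2 * E) := by
    intro K _ _ _ x hcard hx hℓx
    obtain ⟨W, hWN, hsumE, hglob, hnorm, hprox⟩ := hfacts K x hcard hx hℓx
    rw [hprox]
    have hline : ∀ i, ∑ w ∈ W, (mu (ℓ i) w x + Real.log (normV w fun j => algebraMap k K (ℓ i j)))
        ≤ height x + 2 * E := by
      intro i
      rw [Finset.sum_add_distrib]
      have h1 := hglob i W
      have h2 : ∑ w ∈ W, Real.log (normV w fun j => algebraMap k K (ℓ i j)) ≤ E :=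
        (Finset.sum_le_sum fun w _ => hnorm i w).trans (hsumE W)
      linarith
    calc ∑ i, ∑ w ∈ W, (mu (ℓ i) w x + Real.log (normV w fun j => algebraMap k K (ℓ i j)))
        ≤ ∑ _i : Fin q, (height x + 2 * E) := Finset.sum_le_sum fun i _ => hline i
      _ = q * (height x + 2 * E) := by
          rw [Finset.sum_const, Finset.card_univ, Fintype.card_fin, nsmul_eq_mul]
  rcases Nat.lt_or_ge q 3 with hq | hq
  · -- few lines
    refine ⟨Finset.univ.image fun i => lf (ℓ i), 4 * E, ?_, ?_⟩
    · intro G hG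
      obtain ⟨i, -, rfl⟩ := Finset.mem_image.mp hG
      exact ⟨lf_ne_zero (h0 i), 1, lf_hom _⟩
    · intro K _ _ _ x hcard hx hG
      have hℓx : ∀ i, evalForm (ℓ i) x ≠ 0 := by
        intro i
        rw [← aeval_lf]
        exact hG _ (Finset.mem_image_of_mem _ (Finset.mem_univ i))
      have hh : 0 ≤ height x := height_nonneg x hx
      have hq' : (q : ℝ) ≤ 2 := by exact_mod_cast Nat.lt_succ_iff.mp hq
      rcases Nat.eq_zero_or_pos N with hN | hN
      · obtain ⟨W, hWN, -, -, -, hprox⟩ := hfacts K x hcard hx hℓx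
        have hW0 : W = ∅ := Finset.card_eq_zero.mp (by omega)
        rw [hprox, hW0]
        simp only [Finset.sum_empty, Finset.sum_const_zero]
        have h1 : (0 : ℝ) ≤ (N : ℝ) + 1 + ε := by positivity
        have := mul_nonneg h1 hh
        linarith
      · refine (htriv K x hcard hx hℓx).trans ?_
        have hN' : (1 : ℝ) ≤ N := by exact_mod_cast hN
        have h1 : (q : ℝ) * (height x + 2 * E) ≤ 2 * (height x + 2 * E) :=
          mul_le_mul_of_nonneg_right hq' (by linarith)
        have h2 : 2 * height x ≤ (N + 1 + ε) * height x :=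
          mul_le_mul_of_nonneg_right (by linarith) hh
        linarith
  · -- main case
    obtain ⟨R, hR1, hRε⟩ : ∃ R : ℕ, 1 ≤ R ∧ (3 * N + 1 : ℝ) ≤ ε * R := by
      obtain ⟨n, hn⟩ := exists_nat_gt ((3 * N + 1 : ℝ) / ε)
      refine ⟨n + 1, by omega, ?_⟩
      rw [div_lt_iff₀ hε] at hn
      push_cast
      nlinarith
    obtain ⟨M, hM0, hM⟩ := hCRE k q ℓ hq hgen R hR1
    obtain ⟨t, ht1, ht⟩ := hNUM R M hR1 hM0
    obtain ⟨Gs, C₁, hC₁, hGs, hcre⟩ := hM t ht1
    obtain ⟨h₀, hh₀, hnum⟩ := ht C₁ hC₁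
    have hR0 : (1 : ℝ) ≤ R := by exact_mod_cast hR1
    obtain ⟨h₁, hh₁⟩ : ∃ h₁ : ℝ, h₁ = max h₀ (R * E) := ⟨_, rfl⟩
    have h10 : h₀ ≤ h₁ := by rw [hh₁]; exact le_max_left _ _
    have h1E : R * E ≤ h₁ := by rw [hh₁]; exact le_max_right _ _
    refine ⟨Gs ∪ Finset.univ.image fun i => lf (ℓ i), q * (h₁ + 2 * E), ?_, ?_⟩
    · intro G hG
      rcases Finset.mem_union.mp hG with hG | hG
      · exact hGs G hG
      · obtain ⟨i, -, rfl⟩ := Finset.mem_image.mp hG
        exact ⟨lf_ne_zero (h0 i), 1, lf_hom _⟩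
    · intro K _ _ _ x hcard hx hG
      have hℓx : ∀ i, evalForm (ℓ i) x ≠ 0 := by
        intro i
        rw [← aeval_lf]
        exact hG _ (Finset.mem_union_right _ (Finset.mem_image_of_mem _ (Finset.mem_univ i)))
      have hGx : ∀ G ∈ Gs, aeval x G ≠ 0 := fun G hG' => hG G (Finset.mem_union_left _ hG')
      have hh : 0 ≤ height x := height_nonneg x hx
      have hpos : (0 : ℝ) ≤ (N : ℝ) + 1 + ε := by positivity
      have hq0 : (0 : ℝ) ≤ q := Nat.cast_nonneg q
      rcases le_or_gt (height x) h₁ with hlow | hhigh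
      · refine (htriv K x hcard hx hℓx).trans ?_
        have h1 : (q : ℝ) * (height x + 2 * E) ≤ q * (h₁ + 2 * E) :=
          mul_le_mul_of_nonneg_left (by linarith) hq0
        have := mul_nonneg hpos hh
        linarith
      · obtain ⟨W, hWN, hsumE, hglob, hnorm, hprox⟩ := hfacts K x hcard hx hℓx
        have hhpos : 0 < height x := by linarith
        have hsel : ∀ w : Place K, ∃ a b, a ≠ b ∧ mu (ℓ b) w x ≤ mu (ℓ a) w x ∧
            ∀ i, i ≠ a → i ≠ b → mu (ℓ i) w x ≤ err A w := by
          intro w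
          refine top_two (by omega) (fun i => mu (ℓ i) w x) (err A w) ?_
          intro i j l hij hil hjl
          exact hA3 i j l hij hil hjl A (hA3' i j l) K w x (hℓx i) (hℓx j) (hℓx l)
        choose a b hab hle hrest using hsel
        have hlocal : ∀ w : Place K, ∑ i, (mu (ℓ i) w x
            + Real.log (normV w fun j => algebraMap k K (ℓ i j)))
            ≤ mu (ℓ (a w)) w x + mu (ℓ (b w)) w x + 2 * q * err A w := by
          intro w
          rw [Finset.sum_add_distrib]
          have h1 : ∑ i, Real.log (normV w fun j => algebraMap k K (ℓ i j)) ≤ q * err A w := by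
            calc ∑ i, Real.log (normV w fun j => algebraMap k K (ℓ i j))
                ≤ ∑ _i : Fin q, err A w := Finset.sum_le_sum fun i _ => hnorm i w
              _ = q * err A w := by
                  rw [Finset.sum_const, Finset.card_univ, Fintype.card_fin, nsmul_eq_mul]
          have hb' : b w ∈ Finset.univ.erase (a w) :=
            Finset.mem_erase.mpr ⟨(hab w).symm, Finset.mem_univ _⟩
          have h2 : ∑ i, mu (ℓ i) w x ≤ mu (ℓ (a w)) w x + mu (ℓ (b w)) w x + q * err A w := by
            rw [← Finset.add_sum_erase Finset.univ _ (Finset.mem_univ (a w)),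
              ← Finset.add_sum_erase (Finset.univ.erase (a w)) _ hb']
            have h3 : ∑ i ∈ (Finset.univ.erase (a w)).erase (b w), mu (ℓ i) w x ≤
                q * err A w := by
              calc ∑ i ∈ (Finset.univ.erase (a w)).erase (b w), mu (ℓ i) w x
                  ≤ ∑ _i ∈ (Finset.univ.erase (a w)).erase (b w), err A w := by
                    refine Finset.sum_le_sum fun i hi => ?_
                    have hi1 := Finset.mem_erase.mp hi
                    have hi2 := Finset.mem_erase.mp hi1.2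
                    exact hrest w i hi2.1 hi1.1
                _ = (((Finset.univ.erase (a w)).erase (b w)).card : ℝ) * err A w := by
                    rw [Finset.sum_const, nsmul_eq_mul]
                _ ≤ q * err A w := by
                    refine mul_le_mul_of_nonneg_right ?_ (err_nonneg A w)
                    have : ((Finset.univ.erase (a w)).erase (b w)).card ≤ q := by
                      calc _ ≤ (Finset.univ : Finset (Fin q)).card :=
                            Finset.card_le_card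
                              ((Finset.erase_subset _ _).trans (Finset.erase_subset _ _))
                        _ = q := by rw [Finset.card_univ, Fintype.card_fin]
                    exact_mod_cast this
            linarith
          linarith
        -- the weights
        have hone : ∀ i, ∀ w : Place K, R * mu (ℓ i) w x / height x ≤ ((R + 1 : ℕ) : ℝ) := by
          intro i w
          have h1 := hglob i {w}
          rw [Finset.sum_singleton] at h1
          rw [div_le_iff₀ hhpos]
          push_cast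
          have h2 : R * mu (ℓ i) w x ≤ R * (height x + E) :=
            mul_le_mul_of_nonneg_left h1 (by linarith)
          nlinarith
        have hfl : ∀ i, ∀ w : Place K,
            R * mu (ℓ i) w x ≤ (⌊R * mu (ℓ i) w x / height x⌋₊ + 1) * height x := by
          intro i w
          have h1 := (Nat.lt_floor_add_one (R * mu (ℓ i) w x / height x)).le
          rw [div_le_iff₀ hhpos] at h1
          exact h1
        have hfl2 : ∀ i, ∀ w : Place K, ⌊R * mu (ℓ i) w x / height x⌋₊ ≠ 0 →
            ⌊R * mu (ℓ i) w x / height x⌋₊ * height x ≤ R * mu (ℓ i) w x := by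
          intro i w hne
          have h1 : 1 ≤ R * mu (ℓ i) w x / height x :=
            Nat.floor_pos.mp (Nat.pos_of_ne_zero hne)
          have h2 := Nat.floor_le (zero_le_one.trans h1)
          rw [le_div_iff₀ hhpos] at h2
          exact h2
        have hbd : ∀ i, ∀ w : Place K, ⌊R * mu (ℓ i) w x / height x⌋₊ ≤ R + 1 := fun i w =>
          Nat.floor_le_of_le (hone i w)
        have hc := hcre K x hx hℓx hGx W a b
          (fun w => ⌊R * mu (ℓ (a w)) w x / height x⌋₊)
          (fun w => ⌊R * mu (ℓ (b w)) w x / height x⌋₊) ?_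
        · have hs := hnum _ (height x) (Finset.sum_nonneg fun w _ => Nat.cast_nonneg _)
            (by linarith) hc
          have hcomb := comb W N R hWN hR1 ε (height x) hhpos hRε
            (fun w => ⌊R * mu (ℓ (a w)) w x / height x⌋₊)
            (fun w => ⌊R * mu (ℓ (b w)) w x / height x⌋₊)
            (fun w => mu (ℓ (a w)) w x) (fun w => mu (ℓ (b w)) w x)
            (fun w _ => hbd _ w) (fun w _ => hbd _ w) (fun w _ => hfl _ w) (fun w _ => hfl _ w) hs
          rw [hprox, Finset.sum_comm]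
          calc ∑ w ∈ W, ∑ i, (mu (ℓ i) w x
                + Real.log (normV w fun j => algebraMap k K (ℓ i j)))
              ≤ ∑ w ∈ W, (mu (ℓ (a w)) w x + mu (ℓ (b w)) w x + 2 * q * err A w) :=
                Finset.sum_le_sum fun w _ => hlocal w
            _ = ∑ w ∈ W, (mu (ℓ (a w)) w x + mu (ℓ (b w)) w x)
                + 2 * q * ∑ w ∈ W, err A w := by
                rw [Finset.sum_add_distrib, Finset.mul_sum]
            _ ≤ (N + 1 + ε) * height x + 2 * q * E := by
                have h1 : (2 : ℝ) * q * ∑ w ∈ W, err A w ≤ 2 * q * E :=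
                  mul_le_mul_of_nonneg_left (hsumE W) (by positivity)
                linarith
            _ ≤ (N + 1 + ε) * height x + q * (h₁ + 2 * E) := by
                have h1 : 0 ≤ (q : ℝ) * h₁ := mul_nonneg hq0 (by linarith)
                linarith
        · intro w _
          refine ⟨hab w, (hbd _ w).trans (by omega), (hbd _ w).trans (by omega), fun hne => ?_⟩
          exact ⟨hfl2 _ w (left_ne_zero_of_mul hne), hfl2 _ w (right_ne_zero_of_mul hne)⟩

end Pool.Agent.Lib.MP_d0e829_nt.CV
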