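import Pool.Agent.Lib.MP_d0e829_nt.CV.Spec

/-!
# Module LCG: the local lower bound
-/

set_option autoImplicit false
set_option linter.unusedSectionVars false

open NumberField MvPolynomial

namespace Pool.Agent.Lib.MP_d0e829_nt.CV

open scoped Classical

namespace LCGM

variable {k : Type} [Field k] {K : Type} [Field K] [NumberField K] [Algebra k K]

lemma aeval_lf (c : Fin 3 → k) (x : Fin 3 → K) : aeval x (lf c) = evalForm c x := by
  unfold lf evalForm
  rw [map_sum]
  refine Finset.sum_congr rfl (fun j _ => ?_)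
  rw [map_mul, aeval_C, aeval_X]

lemma absV_pow (w : Place K) (a : K) (n : ℕ) : absV w (a ^ n) = absV w a ^ n := by
  induction n with
  | zero => simp
  | succ n ih => rw [pow_succ, absV_mul, ih, pow_succ]

lemma absV_sum_le {ι : Type} (w : Place K) (f : ι → K) (B : ℝ) (hB : 0 ≤ B) (s : Finset ι)
    (h : ∀ i ∈ s, absV w (f i) ≤ B) : absV w (∑ i ∈ s, f i) ≤ kap w ^ s.card * B := by
  induction s using Finset.induction_on with
  | empty => simpa using hB
  | insert a s ha ih =>
    rw [Finset.sum_insert ha, Finset.card_insert_of_notMem ha, pow_succ,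
      mul_comm (kap w ^ s.card), mul_assoc]
    refine absV_add_le w _ _ ?_ (ih (fun i hi => h i (Finset.mem_insert_of_mem hi)))
    have h1 : 1 ≤ kap w ^ s.card := one_le_pow₀ (one_le_kap w)
    have h2 := h a (Finset.mem_insert_self a s)
    nlinarith

/-- the absolute value of a coefficient -/
lemma coeff_le {A' : Finset k} {a : k} (ha : a ∈ A') (w : Place K) :
    absV w (algebraMap k K a) ≤ Real.exp (err A' w) := by
  rcases eq_or_ne (algebraMap k K a) 0 with h0 | h0
  · rw [h0, absV_zero]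
    exact (Real.exp_pos _).le
  · rw [← Real.log_le_iff_le_exp (absV_pos w h0)]
    have h2 := posLog_le_err ha w
    have h3 : Real.log (absV w (algebraMap k K a)) ≤ Real.posLog (absV w (algebraMap k K a)) :=
      le_max_right _ _
    have h4 := log_kap_nonneg w
    linarith

/-- a lower bound for `mu` -/
lemma abs_form_le {M : Fin 3 → k} (w : Place K) {x : Fin 3 → K} {r : ℝ} (h : evalForm M x = 0 ∨ r ≤ mu M w x) :
    absV w (evalForm M x) ≤ Real.exp (Real.log (normV w x) - r) := by
  rcases eq_or_ne (evalForm M x) 0 with h0 | h0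
  · rw [h0, absV_zero]
    exact (Real.exp_pos _).le
  · rw [← Real.log_le_iff_le_exp (absV_pos w h0)]
    have h1 : r ≤ mu M w x := h.resolve_left h0
    unfold mu at h1
    linarith

/-- the upper bound of a form -/
lemma form_le {A' : Finset k} {M : Fin 3 → k} (hM : ∀ j, M j ∈ A') (w : Place K) (x : Fin 3 → K) :
    absV w (evalForm M x) ≤ Real.exp (Real.log (normV w x) + err A' w) := by
  have h := abs_form_le (M := M) w (x := x) (r := -err A' w) (by
    rcases eq_or_ne (evalForm M x) 0 with h0 | h0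
    · exact Or.inl h0
    · right
      have := mu_add_err_nonneg hM w h0
      linarith)
  rwa [sub_neg_eq_add] at h

end LCGM

theorem specLCG : SpecLCG := by
  intro k _ _ l D A B t G hG
  obtain ⟨c, hc⟩ := hG
  refine ⟨(PX D A B t).image c ∪ Finset.univ.image (fun p : Fin 3 × Fin 3 => l p.1 p.2),
    (D : ℝ) + 1 + (PX D A B t).card, by positivity, ?_⟩
  intro A' hA' K _ _ _ w x hx hGx hl0 hl1 h' hh' hmu
  have hcA : ∀ p ∈ PX D A B t, c p ∈ A' := fun p hp =>
    hA' (Finset.mem_union_left _ (Finset.mem_image_of_mem c hp))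
  have hlA : ∀ i j, l i j ∈ A' := fun i j =>
    hA' (Finset.mem_union_right _ (Finset.mem_image.mpr ⟨(i, j), Finset.mem_univ _, rfl⟩))
  set V := Real.log (normV w x) with hV
  set e := err A' w with he
  have he0 : 0 ≤ e := err_nonneg A' w
  have hκ : Real.log (kap w) ≤ e := by
    rw [he]
    unfold err
    have : 0 ≤ ∑ a ∈ A', Real.posLog (absV w (algebraMap k K a)) :=
      Finset.sum_nonneg (fun _ _ => Real.posLog_nonneg)
    linarith
  -- the two numbers
  obtain ⟨α, β, h0, h1, hab⟩ : ∃ α β : ℝ,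
      absV w (evalForm (l 0) x) ≤ Real.exp (V + e - α) ∧
      absV w (evalForm (l 1) x) ≤ Real.exp (V + e - β) ∧
      ∀ p ∈ PX D A B t, t * (A * B) * h' ≤ p.1 * α + p.2 * β := by
    by_cases hAB : A * B = 0
    · refine ⟨0, 0, ?_, ?_, ?_⟩
      · rw [sub_zero]
        exact LCGM.form_le (hlA 0) w x
      · rw [sub_zero]
        exact LCGM.form_le (hlA 1) w x
      · intro p _
        have : ((A : ℝ) * B) = 0 := by exact_mod_cast hAB
        rw [this]
        simp
    · obtain ⟨hm0, hm1⟩ := hmu hAB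
      refine ⟨A * h', B * h', ?_, ?_, ?_⟩
      · refine le_trans (LCGM.abs_form_le w (Or.inr hm0)) (Real.exp_le_exp.mpr ?_)
        linarith
      · refine le_trans (LCGM.abs_form_le w (Or.inr hm1)) (Real.exp_le_exp.mpr ?_)
        linarith
      · intro p hp
        unfold PX at hp
        rw [Finset.mem_filter] at hp
        have h2 : (t : ℝ) * (A * B) ≤ A * p.1 + B * p.2 := by exact_mod_cast hp.2.2
        have h3 := mul_le_mul_of_nonneg_right h2 hh'
        linarith
  have h2 : absV w (evalForm (l 2) x) ≤ Real.exp (V + e) := LCGM.form_le (hlA 2) w x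
  -- the terms
  have hterm : ∀ p ∈ PX D A B t, absV w (algebraMap k K (c p) * evalForm (l 0) x ^ p.1 *
      evalForm (l 1) x ^ p.2 * evalForm (l 2) x ^ (D - p.1 - p.2)) ≤
      Real.exp (D * V + (D + 1) * e - t * (A * B) * h') := by
    intro p hp
    have hpD : p.1 + p.2 ≤ D := by
      unfold PX at hp
      rw [Finset.mem_filter] at hp
      exact hp.2.1
    rw [absV_mul, absV_mul, absV_mul, LCGM.absV_pow, LCGM.absV_pow, LCGM.absV_pow]
    have g0 : absV w (evalForm (l 0) x) ^ p.1 ≤ Real.exp (V + e - α) ^ p.1 :=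
      pow_le_pow_left₀ (absV_nonneg _ _) h0 _
    have g1 : absV w (evalForm (l 1) x) ^ p.2 ≤ Real.exp (V + e - β) ^ p.2 :=
      pow_le_pow_left₀ (absV_nonneg _ _) h1 _
    have g2 : absV w (evalForm (l 2) x) ^ (D - p.1 - p.2) ≤ Real.exp (V + e) ^ (D - p.1 - p.2) :=
      pow_le_pow_left₀ (absV_nonneg _ _) h2 _
    have g3 := LCGM.coeff_le (hcA p hp) w
    have hmul : absV w (algebraMap k K (c p)) * absV w (evalForm (l 0) x) ^ p.1 *
        absV w (evalForm (l 1) x) ^ p.2 * absV w (evalForm (l 2) x) ^ (D - p.1 - p.2) ≤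
        Real.exp e * Real.exp (V + e - α) ^ p.1 * Real.exp (V + e - β) ^ p.2 *
          Real.exp (V + e) ^ (D - p.1 - p.2) := by
      have n0 : 0 ≤ absV w (evalForm (l 0) x) ^ p.1 := pow_nonneg (absV_nonneg _ _) _
      have n1 : 0 ≤ absV w (evalForm (l 1) x) ^ p.2 := pow_nonneg (absV_nonneg _ _) _
      have n2 : 0 ≤ absV w (evalForm (l 2) x) ^ (D - p.1 - p.2) := pow_nonneg (absV_nonneg _ _) _
      have n3 : 0 ≤ absV w (algebraMap k K (c p)) := absV_nonneg _ _
      refine mul_le_mul (mul_le_mul (mul_le_mul g3 g0 n0 (by positivity)) g1 n1 (by positivity))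
        g2 n2 (by positivity)
    refine le_trans hmul ?_
    rw [← Real.exp_nat_mul, ← Real.exp_nat_mul, ← Real.exp_nat_mul, ← Real.exp_add, ← Real.exp_add,
      ← Real.exp_add, Real.exp_le_exp]
    have hr : ((D - p.1 - p.2 : ℕ) : ℝ) = (D : ℝ) - p.1 - p.2 := by
      rw [Nat.cast_sub (by omega), Nat.cast_sub (by omega)]
    rw [hr]
    have := hab p hp
    linarith
  have hGeq : aeval x G = ∑ p ∈ PX D A B t, algebraMap k K (c p) * evalForm (l 0) x ^ p.1 *
      evalForm (l 1) x ^ p.2 * evalForm (l 2) x ^ (D - p.1 - p.2) := by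
    rw [hc, map_sum]
    refine Finset.sum_congr rfl (fun p _ => ?_)
    rw [map_mul, map_mul, map_mul, map_pow, map_pow, map_pow, LCGM.aeval_lf, LCGM.aeval_lf,
      LCGM.aeval_lf, aeval_C]
  have hsum := LCGM.absV_sum_le w (fun p : ℕ × ℕ => algebraMap k K (c p) * evalForm (l 0) x ^ p.1 *
      evalForm (l 1) x ^ p.2 * evalForm (l 2) x ^ (D - p.1 - p.2)) _ (Real.exp_pos _).le
      (PX D A B t) hterm
  rw [← hGeq] at hsum
  have hlog := Real.log_le_log (absV_pos w hGx) hsum
  rw [Real.log_mul (pow_pos (kap_pos w) _).ne' (Real.exp_pos _).ne', Real.log_exp, Real.log_pow] at hlog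
  have hs : ((PX D A B t).card : ℝ) * Real.log (kap w) ≤ (PX D A B t).card * e :=
    mul_le_mul_of_nonneg_left hκ (Nat.cast_nonneg _)
  have e2 : ((D : ℝ) + 1 + (PX D A B t).card) * e = (D + 1) * e + (PX D A B t).card * e := by ring
  rw [e2]
  linarith

end Pool.Agent.Lib.MP_d0e829_nt.CV
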