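import Pool.Agent.Lib.MP_d0e829_nt.CV.Spec

set_option autoImplicit false

namespace Pool.Agent.Lib.MP_d0e829_nt.CV

namespace NUMM

theorem sqrt_bound (t s M q : ℝ) (ht : 0 ≤ t) (hq : 0 ≤ q) (hs : q ^ 2 = s) (htM : 32 * M ≤ t) :
    Real.sqrt (t ^ 2 * s + 2 * t * M) ≤ t * q + t / 4 := by
  apply Real.sqrt_le_iff.mpr
  refine ⟨by positivity, ?_⟩
  have h1 : 0 ≤ t * (t - 32 * M) := mul_nonneg ht (by linarith)
  have h2 : 0 ≤ t ^ 2 * q := by positivity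
  subst hs
  nlinarith

end NUMM

open NUMM in
theorem specNUM : SpecNUM := by
  intro R M hR hM
  refine ⟨max 4 ⌈32 * M⌉₊, le_trans (by norm_num) (le_max_left _ _), fun C hC => ?_⟩
  refine ⟨max 1 (2 * C), le_max_left _ _, fun s h hs hh hle => ?_⟩
  generalize hT : max 4 ⌈32 * M⌉₊ = T at hle
  have hT4 : (4 : ℝ) ≤ (T : ℝ) := by
    rw [← hT]
    exact_mod_cast le_max_left 4 ⌈32 * M⌉₊
  have hTM : 32 * M ≤ (T : ℝ) := by
    have h1 : (⌈32 * M⌉₊ : ℝ) ≤ (T : ℝ) := by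
      rw [← hT]
      exact_mod_cast le_max_right 4 ⌈32 * M⌉₊
    exact le_trans (Nat.le_ceil _) h1
  have hh1 : 1 ≤ h := le_trans (le_max_left _ _) hh
  have hh2 : 2 * C ≤ h := le_trans (le_max_right _ _) hh
  obtain ⟨q, hq, hqs⟩ : ∃ q : ℝ, 0 ≤ q ∧ q ^ 2 = s := ⟨Real.sqrt s, Real.sqrt_nonneg s, Real.sq_sqrt hs⟩
  have hT0 : (0 : ℝ) ≤ (T : ℝ) := by linarith
  have hsq := sqrt_bound (T : ℝ) s M q hT0 hq hqs hTM
  have hR1 : (1 : ℝ) ≤ (R : ℝ) := by exact_mod_cast hR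
  -- the bracket
  have hb : (Real.sqrt ((T : ℝ) ^ 2 * s + 2 * (T : ℝ) * M) + 1) * h + C ≤ (T : ℝ) * h * (q + 1) := by
    have h1 : Real.sqrt ((T : ℝ) ^ 2 * s + 2 * (T : ℝ) * M) + 1 ≤ (T : ℝ) * q + (T : ℝ) / 2 := by
      linarith
    have h2 : (Real.sqrt ((T : ℝ) ^ 2 * s + 2 * (T : ℝ) * M) + 1) * h ≤
        ((T : ℝ) * q + (T : ℝ) / 2) * h := mul_le_mul_of_nonneg_right h1 (by linarith)
    have h3 : C ≤ (T : ℝ) / 2 * h := by nlinarith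
    have h4 : ((T : ℝ) * q + (T : ℝ) / 2) * h + (T : ℝ) / 2 * h = (T : ℝ) * h * (q + 1) := by ring
    linarith
  have h5 : (T : ℝ) * s * h ≤ (R : ℝ) * ((T : ℝ) * h * (q + 1)) :=
    le_trans hle (mul_le_mul_of_nonneg_left hb (by linarith))
  have hTh : 0 < (T : ℝ) * h := by
    apply mul_pos <;> linarith
  have h6 : s ≤ (R : ℝ) * (q + 1) := by
    have h7 : (T : ℝ) * h * s ≤ (T : ℝ) * h * ((R : ℝ) * (q + 1)) := by
      have e1 : (T : ℝ) * h * s = (T : ℝ) * s * h := by ring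
      have e2 : (T : ℝ) * h * ((R : ℝ) * (q + 1)) = (R : ℝ) * ((T : ℝ) * h * (q + 1)) := by ring
      rw [e1, e2]
      exact h5
    exact le_of_mul_le_mul_left h7 hTh
  by_contra hcon
  push Not at hcon
  have h8 : (R : ℝ) + 1 < q := by
    have h9 : ((R : ℝ) + 1) ^ 2 < q ^ 2 := by rw [hqs]; exact hcon
    exact lt_of_pow_lt_pow_left₀ 2 hq h9
  rw [← hqs] at h6
  nlinarith

end Pool.Agent.Lib.MP_d0e829_nt.CV
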