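import Pool.Agent.Lib.MP_d0e829_nt.CV.Spec

/-!
# Module PFG: product formula for forms
-/

set_option autoImplicit false

open NumberField MvPolynomial

namespace Pool.Agent.Lib.MP_d0e829_nt.CV

open scoped Classical

namespace PFGM

section single

variable {K : Type} [Field K] [NumberField K]

theorem absV_sum_le (w : Place K) {ι : Type} (s : Finset ι) (f : ι → K) {B : ℝ} (hB : 0 ≤ B)
    (h : ∀ i ∈ s, absV w (f i) ≤ B) : absV w (∑ i ∈ s, f i) ≤ kap w ^ s.card * B := by
  induction s using Finset.induction_on with
  | empty => simpa using hB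
  | insert a s ha ih =>
    rw [Finset.sum_insert ha, Finset.card_insert_of_notMem ha, pow_succ']
    have h1 : absV w (∑ i ∈ s, f i) ≤ kap w ^ s.card * B :=
      ih fun i hi => h i (Finset.mem_insert_of_mem hi)
    have h2 : absV w (f a) ≤ kap w ^ s.card * B :=
      (h a (Finset.mem_insert_self a s)).trans
        (le_mul_of_one_le_left hB (one_le_pow₀ (one_le_kap w)))
    rw [mul_assoc]
    exact absV_add_le w _ _ h2 h1

theorem absV_pow (w : Place K) (a : K) (n : ℕ) : absV w (a ^ n) = absV w a ^ n := by
  induction n with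
  | zero => simp
  | succ n ih => rw [pow_succ, absV_mul, ih, pow_succ]

theorem absV_mon_le (w : Place K) (x : Fin 3 → K) (d : Fin 3 →₀ ℕ) :
    absV w (∏ i, x i ^ d i) ≤ normV w x ^ (∑ i, d i) := by
  rw [Fin.prod_univ_three, Fin.sum_univ_three, absV_mul, absV_mul, absV_pow, absV_pow, absV_pow,
    pow_add, pow_add]
  have h : ∀ i : Fin 3, absV w (x i) ^ d i ≤ normV w x ^ d i := fun i =>
    pow_le_pow_left₀ (absV_nonneg w _) (absV_le_normV w x i) _
  have h0 : ∀ i : Fin 3, 0 ≤ absV w (x i) ^ d i := fun i => pow_nonneg (absV_nonneg w _) _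
  have hn : ∀ n : ℕ, 0 ≤ normV w x ^ n := fun n => pow_nonneg (normV_nonneg w x) n
  exact mul_le_mul (mul_le_mul (h 0) (h 1) (h0 1) (hn _)) (h 2) (h0 2)
    (mul_nonneg (hn _) (hn _))

end single

section relative

variable {k : Type} [Field k] {K : Type} [Field K] [NumberField K] [Algebra k K]

theorem log_kap_le_err (A : Finset k) (w : Place K) : Real.log (kap w) ≤ err A w := by
  unfold err
  have : 0 ≤ ∑ a ∈ A, Real.posLog (absV w (algebraMap k K a)) :=
    Finset.sum_nonneg fun _ _ => Real.posLog_nonneg
  linarith

theorem absV_le_exp {A : Finset k} {a : k} (ha : a ∈ A) (w : Place K) :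
    absV w (algebraMap k K a) ≤ Real.exp (err A w) := by
  rcases eq_or_ne (algebraMap k K a) 0 with h0 | h0
  · rw [h0, absV_zero]
    exact (Real.exp_pos _).le
  · rw [← Real.log_le_iff_le_exp (absV_pos w h0)]
    have h1 := posLog_le_err ha w
    have h2 : Real.log (absV w (algebraMap k K a)) ≤
        Real.posLog (absV w (algebraMap k K a)) := le_max_right _ _
    have h3 := log_kap_nonneg w
    linarith

/-- the local inequality -/
theorem local_le {D : ℕ} {G : MvPolynomial (Fin 3) k} (hG : G.IsHomogeneous D) {A : Finset k}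
    (hA : ∀ d ∈ G.support, coeff d G ∈ A) (w : Place K) {x : Fin 3 → K} (hx : x ≠ 0)
    (hGx : aeval x G ≠ 0) :
    0 ≤ (D * Real.log (normV w x) - Real.log (absV w (aeval x G))) +
      ((G.support.card : ℝ) + 1) * err A w := by
  have hn := normV_pos w hx
  have hsum : aeval x G =
      ∑ d ∈ G.support, algebraMap k K (coeff d G) * ∏ i, x i ^ d i := by
    rw [aeval_def, eval₂_eq']
  have hterm : ∀ d ∈ G.support, absV w (algebraMap k K (coeff d G) * ∏ i, x i ^ d i) ≤
      Real.exp (err A w) * normV w x ^ D := by
    intro d hd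
    rw [absV_mul]
    have h1 := absV_mon_le w x d
    have h2 : ∑ i, d i = D := by
      have h3 := hG (mem_support_iff.1 hd)
      rw [← h3]
      simp [Finsupp.weight_apply, Finsupp.sum_fintype]
    rw [h2] at h1
    exact mul_le_mul (absV_le_exp (hA d hd) w) h1 (absV_nonneg _ _) (Real.exp_pos _).le
  have h1 := absV_sum_le w G.support _ (by positivity) hterm
  rw [← hsum] at h1
  have h2 := Real.log_le_log (absV_pos w hGx) h1
  have hk := kap_pos w
  rw [Real.log_mul (pow_pos hk _).ne' (by positivity), Real.log_mul (Real.exp_pos _).ne'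
    (by positivity), Real.log_exp, Real.log_pow, Real.log_pow] at h2
  have h3 := log_kap_le_err A w
  have h4 : (G.support.card : ℝ) * Real.log (kap w) ≤ (G.support.card : ℝ) * err A w :=
    mul_le_mul_of_nonneg_left h3 (Nat.cast_nonneg _)
  linarith

end relative

end PFGM

open PFGM

theorem specPFG : SpecPFG := by
  intro k _ _ D G hG
  refine ⟨G.support.image fun d => coeff d G, (G.support.card : ℝ) + 1, by positivity, ?_⟩
  intro A' hA' K _ _ _ x hx hGx T
  have hA : ∀ d ∈ G.support, coeff d G ∈ A' := fun d hd =>
    hA' (Finset.mem_image_of_mem _ hd)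
  set c₀ : ℝ := (G.support.card : ℝ) + 1 with hc₀
  have hc₀' : 0 ≤ c₀ := by positivity
  have hs1 := support_log_normV_finite hx
  have hs2 := support_log_absV_finite hGx
  have hs3 : (Function.support fun w : Place K => err A' w).Finite := support_err_finite A'
  have hs1' : (Function.support fun w : Place K => (D : ℝ) * Real.log (normV w x)).Finite := by
    refine hs1.subset ?_
    intro w hw h0
    apply hw
    simp only at h0 ⊢
    rw [h0, mul_zero]
  have hs3' : (Function.support fun w : Place K => c₀ * err A' w).Finite := by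
    refine hs3.subset ?_
    intro w hw h0
    apply hw
    simp only at h0 ⊢
    rw [h0, mul_zero]
  have hs12 : (Function.support fun w : Place K =>
      (D : ℝ) * Real.log (normV w x) - Real.log (absV w (aeval x G))).Finite := by
    refine (hs1'.union hs2).subset ?_
    intro w hw
    by_contra hcon
    simp only [Set.mem_union, Function.mem_support, not_or, not_not] at hcon
    apply hw
    simp only
    rw [hcon.1, hcon.2, sub_zero]
  have hs4 : (Function.support fun w : Place K =>
      ((D : ℝ) * Real.log (normV w x) - Real.log (absV w (aeval x G))) + c₀ * err A' w).Finite :=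
    (hs12.union hs3').subset (Function.support_add _ _)
  have htot : ∑ᶠ w : Place K,
      (((D : ℝ) * Real.log (normV w x) - Real.log (absV w (aeval x G))) + c₀ * err A' w) =
      D * height x + c₀ * ∑ᶠ w : Place K, err A' w := by
    rw [finsum_add_distrib hs12 hs3', finsum_sub_distrib hs1' hs2, product_formula hGx, sub_zero,
      ← mul_finsum (fun w : Place K => Real.log (normV w x)),
      ← mul_finsum (fun w : Place K => err A' w)]
    rfl
  calc ∑ w ∈ T, (D * Real.log (normV w x) - Real.log (absV w (aeval x G))) ≤
      ∑ w ∈ T, (((D : ℝ) * Real.log (normV w x) - Real.log (absV w (aeval x G))) +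
        c₀ * err A' w) :=
        Finset.sum_le_sum fun w _ => by
          have := mul_nonneg hc₀' (err_nonneg A' w)
          linarith
    _ ≤ ∑ᶠ w : Place K,
      (((D : ℝ) * Real.log (normV w x) - Real.log (absV w (aeval x G))) + c₀ * err A' w) :=
        sum_le_finsum (fun w => local_le hG hA w hx hGx) hs4 T
    _ = _ := htot

end Pool.Agent.Lib.MP_d0e829_nt.CV
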