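import Pool.Agent.Lib.MP_d0e829_nt.CV.VIO
import Pool.Agent.Lib.MP_d0e829_nt.CV.AXG
import Pool.Agent.Lib.MP_d0e829_nt.CV.LCG
import Pool.Agent.Lib.MP_d0e829_nt.CV.PFG
import Pool.Agent.Lib.MP_d0e829_nt.CV.CRE
import Pool.Agent.Lib.MP_d0e829_nt.CV.NUM
import Pool.Agent.Lib.MP_d0e829_nt.CV.FPL

/-!
# Few places above `S`, off curves, without hypotheses
-/

set_option autoImplicit false

namespace Pool.Agent.Lib.MP_d0e829_nt.CV

/-- Theorem P. -/
theorem fewPlaces : SpecFPL :=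
  specFPL (specCRE (specAXG specVIO) specLCG specPFG) specNUM

end Pool.Agent.Lib.MP_d0e829_nt.CV
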