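import Pool.Agent.Lib.MP_d0e829_nt.Main

/-!
# Points over fields with few places above `S`, off a finite union of curves (specifications)

THEOREM P (`SpecFPL`).  `k` number field, `S` finite set of places, `ℓ : Fin q → Fin 3 → k` lines in general
position, `N`, `ε > 0`: there are finitely many nonzero forms `G` over `k` and `C` such that every point
`x` over a number field `K` with at most `N` places above `S`, with all `G(x) ≠ 0`, has
`m_{D,S} ≤ (N + 1 + ε) h + C`.  (For `[K : k] ≤ δ`, `|S| ≤ 2`: the constant `2 δ + 1 + ε`.)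

IDEA.  At every place `w` of `K` above `S` the point is close to at most two lines `a, b`, with
`mu (ℓ a) w x = α_w h`, `mu (ℓ b) w x = β_w h`.  For discretised weights there is a form `G` of large degree
`D` over `k` which vanishes to weighted order `t α_w β_w` at the points `a ∩ b`, because
`∑ t² α_w β_w / 2 < D² / 2`; the product formula gives `∑ t α_w β_w ≤ D`, so `∑ α_w β_w ≤ 1 + ε`, and
`α + β ≤ 1 + α β` for `α, β ≤ 1`.

`mu`, `err`, `kap`, `evalForm`, `normV`, `absV` are those of `Defs.lean`, `Basic.lean`, `Err.lean`, `Local.lean`;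
`Main.lean` is a model for the use of them.

Conventions.  Module `XXX` is the file `CV/XXX.lean`; it imports only `CV.Spec`; namespace
`Pool.Agent.Lib.MP_d0e829_nt.CV`; it proves `theorem specXXX (hYYY : SpecYYY) .. : SpecXXX`, hypotheses in the
order of `USES`; own lemmas in a namespace `XXXM`.  All docstrings are complete proofs.
-/

set_option autoImplicit false

open NumberField MvPolynomial

namespace Pool.Agent.Lib.MP_d0e829_nt.CV

open scoped Classical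

/-- the linear form with coefficients `c` -/
noncomputable def lf {k : Type} [Field k] (c : Fin 3 → k) : MvPolynomial (Fin 3) k :=
  ∑ j, C (c j) * X j

/-- the admissible exponents -/
def PX (D A B t : ℕ) : Finset (ℕ × ℕ) :=
  ((Finset.range (D + 1)) ×ˢ (Finset.range (D + 1))).filter
    (fun p => p.1 + p.2 ≤ D ∧ t * (A * B) ≤ A * p.1 + B * p.2)

/-- `G` is a combination of the monomials with exponents in `PX` in the linear forms `l 0, l 1, l 2` -/
def InI {k : Type} [Field k] (l : Fin 3 → Fin 3 → k) (D A B t : ℕ) (G : MvPolynomial (Fin 3) k) :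
    Prop :=
  ∃ c : ℕ × ℕ → k, G = ∑ p ∈ PX D A B t,
    C (c p) * lf (l 0) ^ p.1 * lf (l 1) ^ p.2 * lf (l 2) ^ (D - p.1 - p.2)

/-- VIO (90 lines).  USES nothing.  The number of the other exponents.

PROOF.  If `A = 0` or `B = 0` the set is empty.  Let `A, B ≥ 1`.  For such a pair `i < t B`, and for given `i` the `j` satisfy
`B j < A (t B - i)`: at most `A (t B - i) / B + 1` of them.  Twice the sum over `i < t B` is
`(A / B) (t B) (t B + 1) + 2 t B = t² A B + t A + 2 t B`.  (For instance: `2 B` times the number is at most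
`∑_{i < t B} 2 (A (t B - i) + B) = A t B (t B + 1) + 2 t B²`.) -/
def SpecVIO : Prop := ∀ D A B t : ℕ,
  2 * (((Finset.range (D + 1)) ×ˢ (Finset.range (D + 1))).filter
    (fun p => p.1 + p.2 ≤ D ∧ A * p.1 + B * p.2 < t * (A * B))).card ≤
      t ^ 2 * (A * B) + 2 * t * (A + B)

/-- AXG (220 lines).  USES VIO.  Auxiliary forms.

PROOF.  Let `Mon` be the set of the pairs `(i, j)`, `i + j ≤ D`; it has `(D + 1) (D + 2) / 2 > D² / 2` elements.  For
`z : Mon → k` let `G_z = ∑ z_(i,j) X_0^i X_1^j X_2^(D - i - j)` (injective in `z`, homogeneous of degree `D`).  For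
`e ∈ E` the matrix `L` with the rows `l e 0, l e 1, l e 2` is invertible; substitute `X_m = ∑_n (L⁻¹)_{m n} Y_n`: `G_z` becomes
`G'(Y)`, homogeneous of degree `D`, with coefficients linear in `z`, and `G_z = G'(lf (l e 0), lf (l e 1), lf (l e 2))`.
The conditions that the coefficients of `G'` at the exponents `(i, j, D - i - j)` with `A i + B j < t A B` are `0`, for all
`e ∈ E`, are at most `∑_e (t² A B + 2 t (A + B)) / 2 ≤ D² / 2` (VIO) linear equations for `z`, fewer than the number of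
unknowns: there is a solution `z ≠ 0`. -/
def SpecAXG : Prop := ∀ (k : Type) [Field k] (ι : Type) (E : Finset ι) (l : ι → Fin 3 → Fin 3 → k)
  (A B : ι → ℕ) (t D : ℕ), (∀ e ∈ E, LinearIndependent k (l e)) →
  ∑ e ∈ E, (t ^ 2 * (A e * B e) + 2 * t * (A e + B e)) ≤ D ^ 2 →
  ∃ G : MvPolynomial (Fin 3) k, G.IsHomogeneous D ∧ G ≠ 0 ∧ ∀ e ∈ E, InI (l e) D (A e) (B e) t G

/-- LCG (200 lines).  USES nothing.  Local lower bound.

PROOF.  `A₀` = the coefficients `c p`, `p ∈ PX D A B t`, and all `l i j`; `m` with `card (PX) ≤ 3^m` and also `2^m`, `c₀ = D + m + 1`.  Put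
`V = log (normV w x)`, `e = err A' w ≥ log (kap w) ≥ 0`.  `log |l_i(x)|_w = V - mu (l i) w x ≤ V + e` whenever `l_i(x) ≠ 0`
(`mu_add_err_nonneg`), and `|l_i(x)|_w ≤ exp (V + e)` in any case (`x ≠ 0`, as `aeval x G ≠ 0` and `G` is homogeneous; if
`D = 0` everything is clear or treat `x = 0` apart).  Let `p ∈ PX`.  If `A B ≠ 0`:
`|l_0(x)^(p.1) l_1(x)^(p.2) l_2(x)^(D - p.1 - p.2)|_w ≤ exp (D V + D e - p.1 mu_0 - p.2 mu_1)` and
`p.1 mu_0 + p.2 mu_1 ≥ (A p.1 + B p.2) h' ≥ t A B h'`; if `A B = 0` the same with `0` in place of these.  Multiplying by `|c p|_w ≤ exp (e)` and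
summing at most `3^m` terms (`|∑|_w ≤ kap w ^ m * max`: at a finite place the maximum, `kap = 1`; at an infinite place `kap w` is
`3` to the exponent `weight w`, and `|∑|_w ≤ (number)^(weight w) max`; see `absV_evalForm_le` and its proof for three terms, or add the
terms one by one): `|G(x)|_w ≤ exp (D V + c₀ e - t A B h')`. -/
def SpecLCG : Prop := ∀ (k : Type) [Field k] [NumberField k] (l : Fin 3 → Fin 3 → k) (D A B t : ℕ)
  (G : MvPolynomial (Fin 3) k), InI l D A B t G → ∃ (A₀ : Finset k) (c₀ : ℝ), 0 ≤ c₀ ∧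
  ∀ A' : Finset k, A₀ ⊆ A' → ∀ (K : Type) [Field K] [NumberField K] [Algebra k K] (w : Place K)
    (x : Fin 3 → K), x ≠ 0 → aeval x G ≠ 0 → evalForm (l 0) x ≠ 0 → evalForm (l 1) x ≠ 0 →
    ∀ h' : ℝ, 0 ≤ h' → (A * B ≠ 0 → A * h' ≤ mu (l 0) w x ∧ B * h' ≤ mu (l 1) w x) →
    t * (A * B) * h' - c₀ * err A' w ≤
      D * Real.log (normV w x) - Real.log (absV w (aeval x G))

/-- PFG (130 lines).  USES nothing.  Product formula for forms.

PROOF.  `A₀` = the coefficients of `G`, `c₀ = m + 1` with `card G.support ≤ 3^m`.  For every place `w`: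
`|G(x)|_w ≤ exp (c₀ err A' w + D log (normV w x))` (monomials are `≤ (normV w x)^D`; at most `3^m` terms), so all terms
`D log (normV w x) - log |G(x)|_w + c₀ err A' w` are `≥ 0`; their sum over all places is
`D height x + c₀ ∑ᶠ err` (product formula for `G(x) ≠ 0`), and the sum over `T` is at most that (`sum_le_finsum`); drop
`c₀ err ≥ 0` on the left (as in the proof of `sum_mu_le` in `Local.lean`). -/
def SpecPFG : Prop := ∀ (k : Type) [Field k] [NumberField k] (D : ℕ) (G : MvPolynomial (Fin 3) k),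
  G.IsHomogeneous D → ∃ (A₀ : Finset k) (c₀ : ℝ), 0 ≤ c₀ ∧ ∀ A' : Finset k, A₀ ⊆ A' →
  ∀ (K : Type) [Field K] [NumberField K] [Algebra k K] (x : Fin 3 → K), x ≠ 0 → aeval x G ≠ 0 →
    ∀ T : Finset (Place K), ∑ w ∈ T, (D * Real.log (normV w x) - Real.log (absV w (aeval x G))) ≤
      D * height x + c₀ * ∑ᶠ w : Place K, err A' w

/-- CRE (240 lines).  USES AXG, LCG, PFG.  The curve estimate.

PROOF.  Entries: `ι = Fin q × Fin q × Fin (2 R + 1) × Fin (2 R + 1)`, for `e = (a, b, A, B)` with `a ≠ b` let `l e = ![ℓ a, ℓ b, ℓ c]`, `c` a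
third index (`exists_third`), independent by general position.  `M = (4 R) q² (2 R + 1)²`, so
`∑_{e ∈ E} (A e + B e) ≤ M` for every set `E` of entries.  For every `E` of entries with `a ≠ b` let `s_E = ∑_{e ∈ E} A e B e` and `D_E`
the least `D` with `∑_{e ∈ E} (t² A B + 2 t (A + B)) ≤ D²`, so `D_E ≤ √(t² s_E + 2 t M) + 1`.  `G_E` from AXG; `𝒢` = all the `G_E`
(finitely many).  `A'` = the union of all `A₀` of LCG (for all `E`, `e ∈ E`) and PFG (all `E`), `E₀` a bound for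
`∑ᶠ err A'` over all `K` (`exists_bound_err`), `c₀` the maximum of the constants, `C = 2 c₀ E₀` (`≥ 0`).  Let `K, x, T, a, b, A, B` be given and
`E` = the set of the entries `(a w, b w, A w, B w)`, `w ∈ T`.  `h' = height x / R ≥ 0` (`height_nonneg`).  For `w ∈ T` LCG for
`e = (a w, b w, A w, B w)`: `t A_w B_w h' - c₀ err w ≤ D_E log normV - log |G_E(x)|_w`.  Sum over `T` and PFG:
`t (∑_{w ∈ T} A_w B_w) h' ≤ D_E height x + 2 c₀ E₀`; `s_E ≤ ∑_{w ∈ T} A_w B_w` (every `e ∈ E` comes from some `w`; the terms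
are `≥ 0`).  Multiply by `R`.  (The maximum of the constants may depend on `t`, `M` does not.) -/
def SpecCRE : Prop := ∀ (k : Type) [Field k] [NumberField k] (q : ℕ) (ℓ : Fin q → Fin 3 → k), 3 ≤ q →
  (∀ i j l, i ≠ j → i ≠ l → j ≠ l → LinearIndependent k ![ℓ i, ℓ j, ℓ l]) →
  ∀ R : ℕ, 1 ≤ R → ∃ M : ℝ, 0 ≤ M ∧ ∀ t : ℕ, 1 ≤ t →
  ∃ (Gs : Finset (MvPolynomial (Fin 3) k)) (C : ℝ), 0 ≤ C ∧
    (∀ G ∈ Gs, G ≠ 0 ∧ ∃ D : ℕ, G.IsHomogeneous D) ∧
    ∀ (K : Type) [Field K] [NumberField K] [Algebra k K] (x : Fin 3 → K), x ≠ 0 →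
      (∀ i, evalForm (ℓ i) x ≠ 0) → (∀ G ∈ Gs, aeval x G ≠ 0) →
      ∀ (T : Finset (Place K)) (a b : Place K → Fin q) (A B : Place K → ℕ),
      (∀ w ∈ T, a w ≠ b w ∧ A w ≤ 2 * R ∧ B w ≤ 2 * R ∧ (A w * B w ≠ 0 →
        A w * height x ≤ R * mu (ℓ (a w)) w x ∧ B w * height x ≤ R * mu (ℓ (b w)) w x)) →
      t * (∑ w ∈ T, ((A w * B w : ℕ) : ℝ)) * height x ≤
        R * ((Real.sqrt (t ^ 2 * (∑ w ∈ T, ((A w * B w : ℕ) : ℝ)) + 2 * t * M) + 1) * height x + C)

/-- NUM (100 lines).  USES nothing.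

PROOF.  Choose `t ≥ 1` with `√(2 M / t) + 1 / t ≤ 1/2`; `h₀ = max 1 (2 C)`.  Let `h ≥ h₀`; divide by `t h`:
`s ≤ R (√(s + 2 M / t) + 1 / t + C / (t h)) ≤ R (√s + √(2 M / t) + 1 / t + 1/2) ≤ R √s + R`.  If `s > (R + 1)²`, then
`√s > R + 1` and `s = √s √s ≤ R √s + R < R √s + √s`, that is `√s < R + 1`, a contradiction. -/
def SpecNUM : Prop := ∀ (R : ℕ) (M : ℝ), 1 ≤ R → 0 ≤ M → ∃ t : ℕ, 1 ≤ t ∧ ∀ C : ℝ, 0 ≤ C →
  ∃ h₀ : ℝ, 1 ≤ h₀ ∧ ∀ s h : ℝ, 0 ≤ s → h₀ ≤ h →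
    t * s * h ≤ R * ((Real.sqrt (t ^ 2 * s + 2 * t * M) + 1) * h + C) → s ≤ ((R : ℝ) + 1) ^ 2

/-- FPL (260 lines; model: the theorem `main` in `Main.lean`).  USES CRE, NUM.  THEOREM P.

PROOF.  `q ≤ 2`: `proximity ≤ q height x + C` (`hprox` and `sum_mu_le` as in `Main.lean`) and `0` if there is no place above `S`; so `q ≤ 2 ≤ N + 1`
or `N = 0`; forms: `lf (ℓ i)` (`aeval x (lf c) = evalForm c x`).  Let `q ≥ 3`.  `A₀` = the `ℓ i j` and the sets of `exists_three_lines` for all triples, `err = err A₀`,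
`E₀ ≥ 0` a bound for `∑ᶠ err` (`exists_bound_err`).  Choose `R ≥ 1` with `(3 N + 1) / R ≤ ε`; `M` (CRE), `t` (NUM), `Gs`, `C₁` (CRE), `h₀` (NUM with `C₁`),
`h₁ = max h₀ (R E₀)`.  The forms: `Gs` and all `lf (ℓ i)`.  Let `x` be given, `T` = the places above `S`, `card T ≤ N`, `h = height x ≥ 0`.  As `hprox` in
`Main.lean`: `proximity ≤ ∑_{w ∈ T} ∑_i mu (ℓ i) w x + q E₀`.  Each `∑_{w ∈ T} mu (ℓ i) w x ≤ h + E₀` (`sum_mu_le`).  If `h ≤ h₁`:
`proximity ≤ q (h₁ + E₀) + q E₀`.  Let `h ≥ h₁ ≥ 1`.  For `w ∈ T` let `a_w ≠ b_w` be from `top_two` (`exists_three_lines`): the others have `mu ≤ err w`.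
`A_w = ⌊R mu (ℓ a_w) / h⌋₊`, `B_w = ⌊R mu (ℓ b_w) / h⌋₊`.  `mu (ℓ i) w x ≤ h + E₀ ≤ (1 + 1/R) h` (`sum_mu_le` for `{w}`), so
`A_w, B_w ≤ R + 1 ≤ 2 R`.  `A_w ≠ 0` gives `A_w h ≤ R mu (ℓ a_w)`, the same for `B_w`.  CRE and NUM: `s = ∑ A_w B_w ≤ (R + 1)²`.  From
`(R + 1 - A_w) (R + 1 - B_w) ≥ 0`: `A_w + B_w ≤ R + 1 + A_w B_w / (R + 1)`, so `∑_w (A_w + B_w) ≤ N (R + 1) + (R + 1)`.  `R mu (ℓ a_w) ≤ (A_w + 1) h`
etc., so `∑_w (mu (ℓ a_w) + mu (ℓ b_w)) ≤ (h / R) ((N + 1) (R + 1) + 2 N) ≤ (N + 1 + (3 N + 1) / R) h ≤ (N + 1 + ε) h`, and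
`proximity ≤ (N + 1 + ε) h + q E₀ + q E₀`. -/
def SpecFPL : Prop := ∀ (k : Type) [Field k] [NumberField k] (S : Finset (Place k)) (q : ℕ)
  (ℓ : Fin q → Fin 3 → k), (∀ i, ℓ i ≠ 0) →
  (∀ i j l, i ≠ j → i ≠ l → j ≠ l → LinearIndependent k ![ℓ i, ℓ j, ℓ l]) →
  ∀ (N : ℕ) (ε : ℝ), 0 < ε → ∃ (Gs : Finset (MvPolynomial (Fin 3) k)) (C : ℝ),
    (∀ G ∈ Gs, G ≠ 0 ∧ ∃ D : ℕ, G.IsHomogeneous D) ∧
    ∀ (K : Type) [Field K] [NumberField K] [Algebra k K] (x : Fin 3 → K),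
      (placesAbove K S).ncard ≤ N → x ≠ 0 → (∀ G ∈ Gs, aeval x G ≠ 0) →
      proximity S ℓ x ≤ (N + 1 + ε) * height x + C

end Pool.Agent.Lib.MP_d0e829_nt.CV
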