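import Pool.Agent.Lib.MP_d0e829_nt.CV.Spec

/-!
# MP_d0e829_nt, module VIO: the number of the exponents below the line
-/

set_option autoImplicit false

open NumberField MvPolynomial

namespace Pool.Agent.Lib.MP_d0e829_nt.CV

open scoped Classical

namespace VIOM

theorem gauss (n : ℕ) : 2 * ∑ i ∈ Finset.range n, (n - i) = n * (n + 1) := by
  have h1 : ∑ i ∈ Finset.range n, (n - i) = ∑ i ∈ Finset.range n, (i + 1) := by
    rw [← Finset.sum_range_reflect (fun i => i + 1) n]
    refine Finset.sum_congr rfl fun i hi => ?_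
    rw [Finset.mem_range] at hi
    omega
  rw [h1]
  induction n with
  | zero => simp
  | succ n ih =>
    have h2 : ∑ i ∈ Finset.range n, (n - i) = ∑ i ∈ Finset.range n, (i + 1) := by
      rw [← Finset.sum_range_reflect (fun i => i + 1) n]
      refine Finset.sum_congr rfl fun i hi => ?_
      rw [Finset.mem_range] at hi
      omega
    have h3 := ih h2
    rw [Finset.sum_range_succ, mul_add, h3]
    ring

end VIOM

theorem specVIO : SpecVIO := by
  intro D A B t
  rcases Nat.eq_zero_or_pos A with hA | hA
  · subst hA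
    simp
  rcases Nat.eq_zero_or_pos B with hB | hB
  · subst hB
    simp
  set P := ((Finset.range (D + 1)) ×ˢ (Finset.range (D + 1))).filter
    (fun p => p.1 + p.2 ≤ D ∧ A * p.1 + B * p.2 < t * (A * B)) with hP
  have hmem : ∀ p ∈ P, A * p.1 + B * p.2 < t * (A * B) := by
    intro p hp
    rw [hP, Finset.mem_filter] at hp
    exact hp.2.2
  have hlt : ∀ p ∈ P, p.1 ∈ Finset.range (t * B) := by
    intro p hp
    have h := hmem p hp
    rw [Finset.mem_range]
    by_contra hc
    have h1 : t * B ≤ p.1 := not_lt.1 hc
    have h2 : A * (t * B) ≤ A * p.1 := Nat.mul_le_mul_left A h1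
    have h3 : t * (A * B) = A * (t * B) := by ring
    omega
  have hfib : ∀ i ∈ Finset.range (t * B),
      B * (P.filter fun p => p.1 = i).card ≤ A * (t * B - i) + B := by
    intro i hi
    rw [Finset.mem_range] at hi
    have hcard : (P.filter fun p => p.1 = i).card ≤ (Finset.range (A * (t * B - i) / B + 1)).card := by
      refine Finset.card_le_card_of_injOn (fun p => p.2) ?_ ?_
      · intro p hp
        have hp' := Finset.mem_filter.1 (Finset.mem_coe.1 hp)
        obtain ⟨hpP, hpi⟩ := hp'
        have h := hmem p hpP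
        rw [hpi] at h
        rw [Finset.mem_coe, Finset.mem_range, Nat.lt_succ_iff, Nat.le_div_iff_mul_le hB]
        have h3 : t * (A * B) = A * (t * B) := by ring
        rw [Nat.mul_sub, mul_comm p.2 B]
        omega
      · intro p hp q hq hpq
        have hp' := (Finset.mem_filter.1 (Finset.mem_coe.1 hp)).2
        have hq' := (Finset.mem_filter.1 (Finset.mem_coe.1 hq)).2
        exact Prod.ext (hp'.trans hq'.symm) hpq
    rw [Finset.card_range] at hcard
    calc B * (P.filter fun p => p.1 = i).card ≤ B * (A * (t * B - i) / B + 1) :=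
          Nat.mul_le_mul_left B hcard
      _ = B * (A * (t * B - i) / B) + B := by ring
      _ ≤ A * (t * B - i) + B := Nat.add_le_add_right (Nat.mul_div_le _ _) _
  have hsum : P.card = ∑ i ∈ Finset.range (t * B), (P.filter fun p => p.1 = i).card :=
    Finset.card_eq_sum_card_fiberwise hlt
  have hg := VIOM.gauss (t * B)
  have h4 : B * P.card ≤ A * ∑ i ∈ Finset.range (t * B), (t * B - i) + t * B * B := by
    rw [hsum, Finset.mul_sum]
    refine (Finset.sum_le_sum hfib).trans (le_of_eq ?_)
    rw [Finset.sum_add_distrib, ← Finset.mul_sum, Finset.sum_const, Finset.card_range,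
      smul_eq_mul]
  have h5 : B * (2 * P.card) ≤ B * (t ^ 2 * (A * B) + 2 * t * (A + B)) := by
    calc B * (2 * P.card) = 2 * (B * P.card) := by ring
      _ ≤ 2 * (A * ∑ i ∈ Finset.range (t * B), (t * B - i) + t * B * B) :=
          Nat.mul_le_mul_left 2 h4
      _ = A * (2 * ∑ i ∈ Finset.range (t * B), (t * B - i)) + 2 * (t * B * B) := by ring
      _ = A * (t * B * (t * B + 1)) + 2 * (t * B * B) := by rw [hg]
      _ = B * (t ^ 2 * (A * B) + t * A + 2 * t * B) := by ring
      _ ≤ B * (t ^ 2 * (A * B) + 2 * t * (A + B)) := by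
          refine Nat.mul_le_mul_left B ?_
          nlinarith [Nat.zero_le (t * A)]
  exact Nat.le_of_mul_le_mul_left h5 hB

end Pool.Agent.Lib.MP_d0e829_nt.CV
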